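import Pool.Agent.H642.TV.Exist

set_option autoImplicit false

/-!
Coding of actions with closed sets by structures on the rationals.
-/

open Set

namespace Pool.Agent.H642.TV

/-- Structures. -/
abbrev Str (Γ : Type) : Type := (ℕ → ℕ → ℕ → Bool) × (Γ → ℕ → ℕ) × (ℕ → ℕ → Bool)

/-- An enumeration of the rationals. -/
noncomputable def en : ℚ ≃ ℕ := Denumerable.eqv ℚ

variable {Γ : Type} [Group Γ]

/-- The functions of a structure, on the rationals. -/
noncomputable def act (s : Str Γ) (γ : Γ) (p : ℚ) : ℚ := en.symm (s.2.1 γ (en p))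

/-- The unary predicates of a structure, on the rationals. -/
def QQ (s : Str Γ) (i : ℕ) (p : ℚ) : Prop := s.2.2 i (en p) = true

/-- Structures that code actions on the rationals by automorphisms of the order. -/
structure Valid (s : Str Γ) : Prop where
  rel : ∀ i m n, s.1 i m n = false
  one : ∀ p, act s 1 p = p
  mul : ∀ γ δ p, act s (γ * δ) p = act s γ (act s δ p)
  mono : ∀ γ p q, p < q → act s γ p < act s γ q

/-- The rationals as a subset of the line. -/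
def RQ : Set ℝ := range (fun q : ℚ => (q : ℝ))

theorem countable_RQ : RQ.Countable := countable_range _

theorem dense_RQ : Dense RQ := Rat.isDenseEmbedding_coe_real.dense

theorem ext_rat (φ : ℚ → ℚ) (hm : StrictMono φ) (hs : Function.Surjective φ) :
    ∃ g : ℝ ≃o ℝ, ∀ q : ℚ, g q = φ q := by
  classical
  set ψ : ℝ → ℝ := fun x => if h : ∃ q : ℚ, (q : ℝ) = x then (φ h.choose : ℝ) else 0 with hψ
  have key : ∀ q : ℚ, ψ q = φ q := by
    intro q
    have h : ∃ r : ℚ, (r : ℝ) = q := ⟨q, rfl⟩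
    simp only [hψ]
    rw [dif_pos h]
    have : h.choose = q := by exact_mod_cast h.choose_spec
    rw [this]
  obtain ⟨g, hg⟩ := ext_dense dense_RQ dense_RQ ψ (by
    rintro _ ⟨p, rfl⟩ _ ⟨q, rfl⟩ hpq
    simp only [key]
    exact_mod_cast hm (by exact_mod_cast (show (p : ℝ) < q from hpq))) (by
    rintro _ ⟨q, rfl⟩
    obtain ⟨p, rfl⟩ := hs q
    exact ⟨(p : ℝ), ⟨p, rfl⟩, key p⟩)
  exact ⟨g, fun q => by rw [hg _ ⟨q, rfl⟩, key]⟩

theorem Valid.exists_ext {s : Str Γ} (hs : Valid s) (γ : Γ) :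
    ∃ g : ℝ ≃o ℝ, ∀ q : ℚ, g q = act s γ q := by
  refine ext_rat (act s γ) (fun p q h => hs.mono γ p q h) fun q => ?_
  exact ⟨act s γ⁻¹ q, by rw [← hs.mul, mul_inv_cancel, hs.one]⟩

open Classical in
/-- The extension of the functions of a structure to the line. -/
noncomputable def extn (s : Str Γ) (γ : Γ) : ℝ ≃o ℝ :=
  if h : ∃ g : ℝ ≃o ℝ, ∀ q : ℚ, g q = act s γ q then h.choose else 1

theorem Valid.extn_app {s : Str Γ} (hs : Valid s) (γ : Γ) (q : ℚ) : extn s γ q = act s γ q := by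
  unfold extn
  rw [dif_pos (hs.exists_ext γ)]
  exact (hs.exists_ext γ).choose_spec q

theorem rat_ext {g h : ℝ ≃o ℝ} (hgh : ∀ q : ℚ, g q = h q) : g = h :=
  iso_ext dense_RQ (by rintro _ ⟨q, rfl⟩; exact hgh q)

/-- The action on the line of a structure. -/
noncomputable def Valid.hom {s : Str Γ} (hs : Valid s) : Γ →* (ℝ ≃o ℝ) where
  toFun := extn s
  map_one' := rat_ext fun q => by rw [hs.extn_app, hs.one, one_app]
  map_mul' γ δ := rat_ext fun q => by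
    rw [mul_app, hs.extn_app, hs.extn_app, hs.extn_app, hs.mul]

theorem Valid.hom_app {s : Str Γ} (hs : Valid s) (γ : Γ) (q : ℚ) : hs.hom γ q = act s γ q :=
  hs.extn_app γ q

/-- The closed sets of a structure. -/
def FF (s : Str Γ) (i : ℕ) : Set ℝ := closure {x | ∃ r : ℚ, QQ s i r ∧ x = r}

omit [Group Γ] in
theorem isClosed_FF (s : Str Γ) (i : ℕ) : IsClosed (FF s i) := isClosed_closure

/-! ### Events -/

/-- `M` describes the closed set `S` by the rational intervals disjoint from it. -/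
def Rp (M : ℚ → ℚ → Prop) (S : Set ℝ) : Prop :=
  ∀ p q : ℚ, p ≤ q → (M p q ↔ ∀ t ∈ Icc (p : ℝ) q, t ∉ S)

/-- The event that `[p, q]` is disjoint from the closure of the set `P` of rationals. -/
def evC (P : ℚ → Prop) (p q : ℚ) : Prop :=
  ∃ p' : ℚ, p' < p ∧ ∃ q' : ℚ, q < q' ∧ ∀ r : ℚ, p' < r → r < q' → ¬ P r

theorem rp_closure (P : ℚ → Prop) : Rp (evC P) (closure {x | ∃ r : ℚ, P r ∧ x = r}) := by
  intro p q hpq
  set C := closure {x : ℝ | ∃ r : ℚ, P r ∧ x = r} with hC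
  have hO : IsOpen Cᶜ := isClosed_closure.isOpen_compl
  constructor
  · rintro ⟨p', h1, q', h2, h3⟩ t ht hmem
    rw [hC, mem_closure_iff] at hmem
    obtain ⟨x, hx, r, hr, rfl⟩ := hmem (Ioo (p' : ℝ) q') isOpen_Ioo
      ⟨lt_of_lt_of_le (by exact_mod_cast h1) ht.1, lt_of_le_of_lt ht.2 (by exact_mod_cast h2)⟩
    exact h3 r (by exact_mod_cast hx.1) (by exact_mod_cast hx.2) hr
  · intro h
    have hpq' : (p : ℝ) ≤ q := by exact_mod_cast hpq
    obtain ⟨l, u, ⟨h1, h2⟩, h3⟩ := mem_nhds_iff_exists_Ioo_subset.mp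
      (hO.mem_nhds (h p ⟨le_rfl, hpq'⟩))
    obtain ⟨l', u', ⟨h1', h2'⟩, h3'⟩ := mem_nhds_iff_exists_Ioo_subset.mp
      (hO.mem_nhds (h q ⟨hpq', le_rfl⟩))
    obtain ⟨p', hp1, hp2⟩ := exists_rat_btwn h1
    obtain ⟨q', hq1, hq2⟩ := exists_rat_btwn h2'
    refine ⟨p', by exact_mod_cast hp2, q', by exact_mod_cast hq1, fun r hr1 hr2 hPr => ?_⟩
    have hrC : (r : ℝ) ∈ C := subset_closure ⟨r, hPr, rfl⟩
    have hr1' : (p' : ℝ) < r := by exact_mod_cast hr1
    have hr2' : (r : ℝ) < q' := by exact_mod_cast hr2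
    rcases lt_or_ge (r : ℝ) p with h4 | h4
    · exact h3 ⟨hp1.trans hr1', h4.trans h2⟩ hrC
    · rcases le_or_gt (r : ℝ) q with h5 | h5
      · exact h r ⟨h4, h5⟩ hrC
      · exact h3' ⟨h1'.trans h5, hr2'.trans hq2⟩ hrC

/-- All end points of the closed set described by `M` are rational. -/
def endRat (M : ℚ → ℚ → Prop) : Prop :=
  (∀ u v : ℚ, u < v → M u u → ¬ M u v → ∃ p : ℚ, u < p ∧ p ≤ v ∧ ¬ M p p ∧
    ∀ p' : ℚ, u ≤ p' → p' < p → M u p') ∧
  (∀ u v : ℚ, u < v → M v v → ¬ M u v → ∃ p : ℚ, u ≤ p ∧ p < v ∧ ¬ M p p ∧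
    ∀ p' : ℚ, p < p' → p' ≤ v → M p' v)

/-- `e` is isolated from the left in the closed set described by `M`. -/
def evL (M : ℚ → ℚ → Prop) (e : ℚ) : Prop :=
  ¬ M e e ∧ ∃ u : ℚ, u < e ∧ ∀ p' : ℚ, u ≤ p' → p' < e → M u p'

/-- `e` is isolated from the right in the closed set described by `M`. -/
def evR (M : ℚ → ℚ → Prop) (e : ℚ) : Prop :=
  ¬ M e e ∧ ∃ v : ℚ, e < v ∧ ∀ p' : ℚ, e < p' → p' ≤ v → M p' v

theorem Rp.pt {M : ℚ → ℚ → Prop} {S : Set ℝ} (h : Rp M S) (p : ℚ) : M p p ↔ (p : ℝ) ∉ S := by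
  rw [h p p le_rfl]
  constructor
  · intro h1
    exact h1 p ⟨le_rfl, le_rfl⟩
  · intro h1 t ht
    have : t = p := le_antisymm ht.2 ht.1
    rwa [this]

theorem Rp.pt' {M : ℚ → ℚ → Prop} {S : Set ℝ} (h : Rp M S) (p : ℚ) : ¬ M p p ↔ (p : ℝ) ∈ S := by
  rw [h.pt, not_not]

theorem Rp.evL_iff {M : ℚ → ℚ → Prop} {S : Set ℝ} (h : Rp M S) (e : ℚ) :
    evL M e ↔ LEnd S e := by
  unfold evL LEnd
  rw [h.pt']
  refine and_congr_right fun _ => ⟨?_, ?_⟩
  · rintro ⟨u, hu, h1⟩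
    refine ⟨u, by exact_mod_cast hu, fun t ht1 ht2 => ?_⟩
    obtain ⟨p', h2, h3⟩ := exists_rat_btwn ht2
    have h4 : u ≤ p' := by exact_mod_cast (ht1.trans h2).le
    exact (h u p' h4).mp (h1 p' h4 (by exact_mod_cast h3)) t ⟨ht1.le, h2.le⟩
  · rintro ⟨u, hu, h1⟩
    obtain ⟨u', h2, h3⟩ := exists_rat_btwn hu
    refine ⟨u', by exact_mod_cast h3, fun p' h4 h5 => ?_⟩
    rw [h u' p' h4]
    intro t ht
    exact h1 t (h2.trans_le ht.1) (lt_of_le_of_lt ht.2 (by exact_mod_cast h5))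

theorem Rp.evR_iff {M : ℚ → ℚ → Prop} {S : Set ℝ} (h : Rp M S) (e : ℚ) :
    evR M e ↔ REnd S e := by
  unfold evR REnd
  rw [h.pt']
  refine and_congr_right fun _ => ⟨?_, ?_⟩
  · rintro ⟨u, hu, h1⟩
    refine ⟨u, by exact_mod_cast hu, fun t ht1 ht2 => ?_⟩
    obtain ⟨p', h2, h3⟩ := exists_rat_btwn ht1
    have h4 : p' ≤ u := by exact_mod_cast (h3.trans ht2).le
    exact (h p' u h4).mp (h1 p' (by exact_mod_cast h2) h4) t ⟨h3.le, ht2.le⟩
  · rintro ⟨u, hu, h1⟩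
    obtain ⟨u', h2, h3⟩ := exists_rat_btwn hu
    refine ⟨u', by exact_mod_cast h2, fun p' h4 h5 => ?_⟩
    rw [h p' u' h5]
    intro t ht
    exact h1 t (lt_of_lt_of_le (by exact_mod_cast h4) ht.1) (lt_of_le_of_lt ht.2 h3)

theorem Rp.endRat_iff {M : ℚ → ℚ → Prop} {S : Set ℝ} (hS : IsClosed S) (h : Rp M S) :
    endRat M ↔ ∀ t, LEnd S t ∨ REnd S t → ∃ p : ℚ, t = p := by
  constructor
  · rintro ⟨hl, hr⟩ t (⟨ht, u, hu, h1⟩ | ⟨ht, v, hv, h1⟩)
    · obtain ⟨u', h2, h3⟩ := exists_rat_btwn hu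
      obtain ⟨v', h4, _⟩ := exists_rat_btwn (lt_add_one t)
      have hu'S : (u' : ℝ) ∉ S := h1 u' h2 h3
      have huv : u' < v' := by exact_mod_cast h3.trans h4
      obtain ⟨p, hp1, hp2, hp3, hp4⟩ := hl u' v' huv ((h.pt u').mpr hu'S) (fun hM =>
        (h u' v' huv.le).mp hM t ⟨h3.le, h4.le⟩ ht)
      rw [h.pt'] at hp3
      refine ⟨p, ?_⟩
      rcases lt_trichotomy t p with h5 | h5 | h5
      · obtain ⟨p', h6, h7⟩ := exists_rat_btwn h5
        have h8 : u' ≤ p' := by exact_mod_cast (h3.trans h6).le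
        exact absurd ht ((h u' p' h8).mp (hp4 p' h8 (by exact_mod_cast h7)) t ⟨h3.le, h6.le⟩)
      · exact h5
      · exact absurd hp3 (h1 p (h2.trans (by exact_mod_cast hp1)) h5)
    · obtain ⟨v', h2, h3⟩ := exists_rat_btwn hv
      obtain ⟨u', _, h4⟩ := exists_rat_btwn (sub_one_lt t)
      have hv'S : (v' : ℝ) ∉ S := h1 v' h2 h3
      have huv : u' < v' := by exact_mod_cast h4.trans h2
      obtain ⟨p, hp1, hp2, hp3, hp4⟩ := hr u' v' huv ((h.pt v').mpr hv'S) (fun hM =>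
        (h u' v' huv.le).mp hM t ⟨h4.le, h2.le⟩ ht)
      rw [h.pt'] at hp3
      refine ⟨p, ?_⟩
      rcases lt_trichotomy t p with h5 | h5 | h5
      · exact absurd hp3 (h1 p h5 (lt_trans (by exact_mod_cast hp2) h3))
      · exact h5
      · obtain ⟨p', h6, h7⟩ := exists_rat_btwn h5
        have h8 : p' ≤ v' := by exact_mod_cast (h7.trans h2).le
        exact absurd ht ((h p' v' h8).mp (hp4 p' (by exact_mod_cast h6) h8) t ⟨h7.le, h2.le⟩)
  · intro hrat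
    constructor
    · intro u v huv hu huv'
      rw [h.pt] at hu
      have huv2 : (u : ℝ) < v := by exact_mod_cast huv
      rw [h u v huv.le] at huv'
      push Not at huv'
      obtain ⟨w, hw, hwS⟩ := huv'
      have hne : (S ∩ Icc (u : ℝ) v).Nonempty := ⟨w, hwS, hw⟩
      have hbd : BddBelow (S ∩ Icc (u : ℝ) v) := ⟨u, fun x hx => hx.2.1⟩
      have hs := (hS.inter isClosed_Icc).csInf_mem hne hbd
      set s := sInf (S ∩ Icc (u : ℝ) v) with hsdef
      have hsq : (u : ℝ) < s := lt_of_le_of_ne hs.2.1 (fun he => hu (he ▸ hs.1))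
      have hlow : ∀ t, (u : ℝ) ≤ t → t < s → t ∉ S := fun t ht ht' hmem =>
        absurd ht' (not_lt.mpr (csInf_le hbd ⟨hmem, ht, ht'.le.trans hs.2.2⟩))
      obtain ⟨p, hp⟩ := hrat s (Or.inl ⟨hs.1, u, hsq, fun t ht ht' => hlow t ht.le ht'⟩)
      refine ⟨p, ?_, ?_, ?_, fun p' h1 h2 => ?_⟩
      · rw [hp] at hsq; exact_mod_cast hsq
      · have := hs.2.2
        rw [hp] at this; exact_mod_cast this
      · rw [h.pt', ← hp]; exact hs.1
      · rw [h u p' h1]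
        intro t ht
        refine hlow t ht.1 (lt_of_le_of_lt ht.2 ?_)
        rw [hp]; exact_mod_cast h2
    · intro u v huv hv huv'
      rw [h.pt] at hv
      have huv2 : (u : ℝ) < v := by exact_mod_cast huv
      rw [h u v huv.le] at huv'
      push Not at huv'
      obtain ⟨w, hw, hwS⟩ := huv'
      have hne : (S ∩ Icc (u : ℝ) v).Nonempty := ⟨w, hwS, hw⟩
      have hbd : BddAbove (S ∩ Icc (u : ℝ) v) := ⟨v, fun x hx => hx.2.2⟩
      have hs := (hS.inter isClosed_Icc).csSup_mem hne hbd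
      set s := sSup (S ∩ Icc (u : ℝ) v) with hsdef
      have hsq : s < (v : ℝ) := lt_of_le_of_ne hs.2.2 (fun he => hv (he ▸ hs.1))
      have hup : ∀ t, s < t → t ≤ (v : ℝ) → t ∉ S := fun t ht ht' hmem =>
        absurd ht (not_lt.mpr (le_csSup hbd ⟨hmem, hs.2.1.trans ht.le, ht'⟩))
      obtain ⟨p, hp⟩ := hrat s (Or.inr ⟨hs.1, v, hsq, fun t ht ht' => hup t ht ht'.le⟩)
      refine ⟨p, ?_, ?_, ?_, fun p' h1 h2 => ?_⟩
      · have := hs.2.1
        rw [hp] at this; exact_mod_cast this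
      · rw [hp] at hsq; exact_mod_cast hsq
      · rw [h.pt', ← hp]; exact hs.1
      · rw [h p' v h2]
        intro t ht
        refine hup t (lt_of_lt_of_le ?_ ht.1) ht.2
        rw [hp]; exact_mod_cast h1

/-! ### The events of the family of closed sets of an action -/

/-- The event for the translate by `γ` of the `i`-th closed set. -/
def evF (s : Str Γ) (γ : Γ) (i : ℕ) : ℚ → ℚ → Prop :=
  evC fun r => ∃ r' : ℚ, act s γ⁻¹ r = r' ∧ QQ s i r'

/-- The event for the fixed points of `γ`. -/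
def evX (s : Str Γ) (γ : Γ) (p q : ℚ) : Prop := ∃ n : ℤ, q < act s (γ ^ n) p

/-- Wandering intervals with rational end points. -/
def wi (s : Str Γ) (u v : ℚ) : Prop :=
  ∀ γ, v ≤ act s γ u ∨ act s γ v ≤ u ∨ ∀ z : ℚ, u < z → z < v → act s γ z = z

/-- The event for the nonwandering set. -/
def evN (s : Str Γ) (p q : ℚ) : Prop :=
  ∃ n : ℕ, ∀ x : ℚ, p ≤ x → x ≤ q → wi s (x - 1 / ((n : ℚ) + 1)) (x + 1 / ((n : ℚ) + 1))

variable {s : Str Γ} {ρ : Γ →* (ℝ ≃o ℝ)}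

theorem rp_F (hc : ∀ γ (q : ℚ), ρ γ q = act s γ q) (γ : Γ) (i : ℕ) :
    Rp (evF s γ i) (ρ γ '' FF s i) := by
  have h := rp_closure fun r => ∃ r' : ℚ, act s γ⁻¹ r = r' ∧ QQ s i r'
  have h1 : closure {x : ℝ | ∃ r : ℚ, (∃ r' : ℚ, act s γ⁻¹ r = r' ∧ QQ s i r') ∧ x = r} =
      ρ γ '' FF s i := by
    rw [FF, image_closure_iso]
    congr 1
    ext x
    constructor
    · rintro ⟨r, ⟨r', h2, h3⟩, rfl⟩
      refine ⟨r', ⟨r', h3, rfl⟩, ?_⟩
      rw [← h2, ← hc, act_inv]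
    · rintro ⟨_, ⟨r', h2, rfl⟩, rfl⟩
      rw [hc]
      refine ⟨act s γ r', ⟨r', ?_, h2⟩, rfl⟩
      have h3 : ((act s γ⁻¹ (act s γ r') : ℚ) : ℝ) = r' := by
        rw [← hc, ← hc, inv_act]
      exact_mod_cast h3
  rw [h1] at h
  exact h

theorem rp_X (hc : ∀ γ (q : ℚ), ρ γ q = act s γ q) (γ : Γ) :
    Rp (evX s γ) {t | ρ γ t = t} := by
  intro p q hpq
  have hpq' : (p : ℝ) ≤ q := by exact_mod_cast hpq
  constructor
  · rintro ⟨n, hn⟩ t ht hfix
    have h1 : ρ (γ ^ n) t = t := by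
      have h2 : ρ γ t = t := hfix
      have h3 : ∀ m : ℕ, ρ (γ ^ m) t = t := fun m => by
        induction m with
        | zero => rw [pow_zero, map_one, one_app]
        | succ m ih => rw [pow_succ, act_mul, h2, ih]
      rcases Int.eq_nat_or_neg n with ⟨m, rfl | rfl⟩
      · rw [zpow_natCast]; exact h3 m
      · rw [zpow_neg, zpow_natCast]
        have h4 := congrArg (ρ (γ ^ m)⁻¹) (h3 m)
        rw [inv_act] at h4
        exact h4.symm
    have h2 : (q : ℝ) < ρ (γ ^ n) p := by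
      rw [hc]; exact_mod_cast hn
    have h3 : ρ (γ ^ n) p ≤ ρ (γ ^ n) t := (ρ (γ ^ n)).le_iff_le.mpr ht.1
    rw [h1] at h3
    linarith [ht.2]
  · intro h
    have key : ∀ δ : Γ, (∀ t ∈ Icc (p : ℝ) q, ρ δ t ≠ t) → (p : ℝ) < ρ δ p →
        ∃ n : ℕ, (q : ℝ) < ρ (δ ^ n) p := by
      intro δ hδ hp
      have h1 : ∀ t ∈ Icc (p : ℝ) q, t < ρ δ t := by
        intro t ht
        by_contra hcon
        have hcon' : ρ δ t - t ≤ 0 := by linarith [not_lt.mp hcon]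
        have hp' : 0 ≤ ρ δ p - p := by linarith
        have hcont : ContinuousOn (fun x : ℝ => ρ δ x - x) (uIcc (p : ℝ) t) :=
          ((ρ δ).continuous.sub continuous_id).continuousOn
        have h0 : (0 : ℝ) ∈ uIcc (ρ δ p - p) (ρ δ t - t) := by
          rw [uIcc_of_ge (hcon'.trans hp')]
          exact ⟨hcon', hp'⟩
        obtain ⟨x, hx, hx0⟩ := intermediate_value_uIcc hcont h0
        rw [uIcc_of_le ht.1] at hx
        exact hδ x ⟨hx.1, hx.2.trans ht.2⟩ (by linarith [show ρ δ x - x = 0 from hx0])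
      obtain ⟨n, hn⟩ := esc_up h1
      exact ⟨n, by rw [map_pow]; exact hn⟩
    rcases lt_trichotomy (ρ γ p) p with h1 | h1 | h1
    · obtain ⟨n, hn⟩ := key γ⁻¹ (fun t ht hfix => h t ht (by
        have h2 := congrArg (ρ γ) hfix
        rw [act_inv] at h2
        exact h2.symm)) (by rw [map_inv]; exact lt_inv_app.mpr h1)
      refine ⟨-n, ?_⟩
      have h2 : (q : ℝ) < (act s (γ ^ (-(n : ℤ))) p : ℝ) := by
        rw [← hc, zpow_neg, zpow_natCast, ← inv_pow]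
        exact hn
      exact_mod_cast h2
    · exact absurd h1 (h p ⟨le_rfl, hpq'⟩)
    · obtain ⟨n, hn⟩ := key γ h h1
      refine ⟨n, ?_⟩
      have h2 : (q : ℝ) < (act s (γ ^ (n : ℤ)) p : ℝ) := by
        rw [← hc, zpow_natCast]
        exact hn
      exact_mod_cast h2

theorem wi_iff (hc : ∀ γ (q : ℚ), ρ γ q = act s γ q) (u v : ℚ) : wi s u v ↔ WI ρ u v := by
  unfold wi WI
  refine forall_congr' fun γ => ?_
  rw [hc, hc]
  refine or_congr (by exact_mod_cast Iff.rfl) (or_congr (by exact_mod_cast Iff.rfl) ?_)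
  constructor
  · intro h z hz1 hz2
    rcases lt_trichotomy (ρ γ z) z with h1 | h1 | h1
    · obtain ⟨r, hr1, hr2⟩ := exists_rat_btwn (max_lt hz1 h1)
      have h2 : (u : ℝ) < r := lt_of_le_of_lt (le_max_left _ _) hr1
      have h3 : ρ γ z < r := lt_of_le_of_lt (le_max_right _ _) hr1
      have h4 : ρ γ r = r := by
        rw [hc]
        exact_mod_cast h r (by exact_mod_cast h2) (by exact_mod_cast hr2.trans hz2)
      have h5 : ρ γ r < ρ γ z := (ρ γ).lt_iff_lt.mpr hr2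
      linarith
    · exact h1
    · obtain ⟨r, hr1, hr2⟩ := exists_rat_btwn (lt_min hz2 h1)
      have h2 : (r : ℝ) < v := lt_of_lt_of_le hr2 (min_le_left _ _)
      have h3 : (r : ℝ) < ρ γ z := lt_of_lt_of_le hr2 (min_le_right _ _)
      have h4 : ρ γ r = r := by
        rw [hc]
        exact_mod_cast h r (by exact_mod_cast hz1.trans hr1) (by exact_mod_cast h2)
      have h5 : ρ γ z < ρ γ r := (ρ γ).lt_iff_lt.mpr hr1
      linarith
  · intro h z hz1 hz2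
    have h1 := h z (by exact_mod_cast hz1) (by exact_mod_cast hz2)
    rw [hc] at h1
    exact_mod_cast h1

theorem WI.mono {u v u' v' : ℝ} (h : WI ρ u v) (h1 : u ≤ u') (h2 : v' ≤ v) :
    WI ρ u' v' := by
  intro γ
  rcases h γ with h4 | h4 | h4
  · left
    exact h2.trans (h4.trans ((ρ γ).le_iff_le.mpr h1))
  · right; left
    exact ((ρ γ).le_iff_le.mpr h2).trans (h4.trans h1)
  · right; right
    intro z hz1 hz2
    exact h4 z (lt_of_le_of_lt h1 hz1) (lt_of_lt_of_le hz2 h2)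

theorem rp_N (hc : ∀ γ (q : ℚ), ρ γ q = act s γ q) : Rp (evN s) (NW ρ) := by
  intro p q hpq
  have hpq' : (p : ℝ) ≤ q := by exact_mod_cast hpq
  constructor
  · rintro ⟨n, hn⟩ t ht hmem
    have hn0 : (0 : ℝ) < 1 / ((n : ℝ) + 1) := by positivity
    have hx : ∃ x : ℚ, p ≤ x ∧ x ≤ q ∧ |(x : ℝ) - t| < 1 / ((n : ℝ) + 1) := by
      rcases ht.2.eq_or_lt with h1 | h1
      · exact ⟨q, hpq, le_rfl, by rw [h1]; simpa using hn0⟩
      · obtain ⟨x, hx1, hx2⟩ := exists_rat_btwn (lt_min h1 (lt_add_of_pos_right t hn0))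
        have h2 : (x : ℝ) < q := lt_of_lt_of_le hx2 (min_le_left _ _)
        have h3 : (x : ℝ) < t + 1 / ((n : ℝ) + 1) := lt_of_lt_of_le hx2 (min_le_right _ _)
        refine ⟨x, by exact_mod_cast (lt_of_le_of_lt ht.1 hx1).le, by exact_mod_cast h2.le, ?_⟩
        rw [abs_of_pos (by linarith)]
        linarith
    obtain ⟨x, hx1, hx2, hx3⟩ := hx
    have hW := (wi_iff hc _ _).mp (hn x hx1 hx2)
    rw [abs_lt] at hx3
    push_cast at hW
    exact hmem _ _ (by linarith) (by linarith) hW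
  · intro h
    -- a Lebesgue number
    have hopen : ∀ i : {w : ℝ × ℝ // WI ρ w.1 w.2}, IsOpen (Ioo i.1.1 i.1.2) := fun i => isOpen_Ioo
    have hcov : Icc (p : ℝ) q ⊆ ⋃ i : {w : ℝ × ℝ // WI ρ w.1 w.2}, Ioo i.1.1 i.1.2 := by
      intro t ht
      have h1 : ¬ ∀ u v, u < t → t < v → ¬ WI ρ u v := h t ht
      push Not at h1
      obtain ⟨u, v, hu, hv, hW⟩ := h1
      exact mem_iUnion.mpr ⟨⟨(u, v), hW⟩, hu, hv⟩
    obtain ⟨δ, hδ, hδ'⟩ := lebesgue_number_lemma_of_metric isCompact_Icc hopen hcov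
    obtain ⟨n, hn⟩ := exists_nat_one_div_lt hδ
    refine ⟨n, fun x hx1 hx2 => ?_⟩
    rw [wi_iff hc]
    obtain ⟨i, hi⟩ := hδ' x ⟨by exact_mod_cast hx1, by exact_mod_cast hx2⟩
    rw [Real.ball_eq_Ioo] at hi
    have hn0 : (0 : ℝ) < 1 / ((n : ℝ) + 1) := by positivity
    have hlt : (x : ℝ) - δ < x + δ := by linarith
    obtain ⟨h1, h2⟩ := (Ioo_subset_Ioo_iff hlt).mp hi
    push_cast
    refine WI.mono i.2 ?_ ?_
    · linarith
    · linarith

/-! ### Good structures -/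

/-- The event that `e` is an end point of a member of the family. -/
def evE (s : Str Γ) (e : ℚ) : Prop :=
  (∃ (γ : Γ) (i : ℕ), evL (evF s γ i) e ∨ evR (evF s γ i) e) ∨
  (∃ γ : Γ, evL (evX s γ) e ∨ evR (evX s γ) e) ∨ evL (evN s) e ∨ evR (evN s) e

/-- The event for the closure of the set of end points. -/
def evA (s : Str Γ) : ℚ → ℚ → Prop := evC (evE s)

/-- Good structures. -/
structure GoodS (s : Str Γ) : Prop where
  valid : Valid s
  cl : ∀ i p, QQ s i p ↔ ¬ evF s 1 i p p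
  ratF : ∀ (γ : Γ) (i : ℕ), endRat (evF s γ i)
  ratX : ∀ γ : Γ, endRat (evX s γ)
  ratN : endRat (evN s)
  ratA : endRat (evA s)
  inter : ∀ p : ℚ, ¬ evA s p p → evE s p ∨ evL (evA s) p ∨ evR (evA s) p
  tr : ∀ p q : ℚ, p ≤ q → ¬ evN s p p → evA s p q → ∃ γ, act s γ p = q

theorem evE_iff (hc : ∀ γ (q : ℚ), ρ γ q = act s γ q) (e : ℚ) :
    evE s e ↔ (e : ℝ) ∈ EE (Fam ρ (FF s)) := by
  unfold evE
  constructor
  · rintro (⟨γ, i, h⟩ | ⟨γ, h⟩ | h)
    · rw [(rp_F hc γ i).evL_iff, (rp_F hc γ i).evR_iff] at h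
      exact ⟨_, Fam.image_mem γ i, h⟩
    · rw [(rp_X hc γ).evL_iff, (rp_X hc γ).evR_iff] at h
      exact ⟨_, Fam.fix_mem γ, h⟩
    · rw [(rp_N hc).evL_iff, (rp_N hc).evR_iff] at h
      exact ⟨_, Fam.nw_mem, h⟩
  · rintro ⟨S, (⟨⟨γ, i⟩, rfl⟩ | ⟨γ, rfl⟩) | hS, h⟩
    · left
      refine ⟨γ, i, ?_⟩
      rw [(rp_F hc γ i).evL_iff, (rp_F hc γ i).evR_iff]
      exact h
    · right; left
      refine ⟨γ, ?_⟩
      rw [(rp_X hc γ).evL_iff, (rp_X hc γ).evR_iff]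
      exact h
    · right; right
      rw [mem_singleton_iff.mp hS] at h
      rw [(rp_N hc).evL_iff, (rp_N hc).evR_iff]
      exact h

theorem rat_EE_iff (hc : ∀ γ (q : ℚ), ρ γ q = act s γ q) :
    ((∀ (γ : Γ) (i : ℕ), endRat (evF s γ i)) ∧ (∀ γ : Γ, endRat (evX s γ)) ∧ endRat (evN s)) ↔
      ∀ t ∈ EE (Fam ρ (FF s)), ∃ p : ℚ, t = p := by
  constructor
  · rintro ⟨h1, h2, h3⟩ t ⟨S, (⟨⟨γ, i⟩, rfl⟩ | ⟨γ, rfl⟩) | hS, h⟩
    · exact ((rp_F hc γ i).endRat_iff (isClosed_image _ (isClosed_FF s i))).mp (h1 γ i) t h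
    · exact ((rp_X hc γ).endRat_iff (isClosed_eq (ρ γ).continuous continuous_id)).mp (h2 γ) t h
    · rw [mem_singleton_iff.mp hS] at h
      exact ((rp_N hc).endRat_iff isClosed_NW).mp h3 t h
  · intro h
    refine ⟨fun γ i => ?_, fun γ => ?_, ?_⟩
    · rw [(rp_F hc γ i).endRat_iff (isClosed_image _ (isClosed_FF s i))]
      exact fun t ht => h t ⟨_, Fam.image_mem γ i, ht⟩
    · rw [(rp_X hc γ).endRat_iff (isClosed_eq (ρ γ).continuous continuous_id)]
      exact fun t ht => h t ⟨_, Fam.fix_mem γ, ht⟩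
    · rw [(rp_N hc).endRat_iff isClosed_NW]
      exact fun t ht => h t ⟨_, Fam.nw_mem, ht⟩

theorem rp_A (hc : ∀ γ (q : ℚ), ρ γ q = act s γ q)
    (hrat : ∀ t ∈ EE (Fam ρ (FF s)), ∃ p : ℚ, t = p) : Rp (evA s) (AR ρ (FF s)) := by
  have h := rp_closure (evE s)
  have h1 : {x : ℝ | ∃ r : ℚ, evE s r ∧ x = r} = EE (Fam ρ (FF s)) := by
    ext x
    constructor
    · rintro ⟨r, hr, rfl⟩
      exact (evE_iff hc r).mp hr
    · intro hx
      obtain ⟨p, rfl⟩ := hrat x hx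
      exact ⟨p, (evE_iff hc p).mpr hx, rfl⟩
  rw [h1] at h
  exact h

theorem goodS_iff (hv : Valid s) (hc : ∀ γ (q : ℚ), ρ γ q = act s γ q) :
    GoodS s ↔ (∀ i p, QQ s i p ↔ (p : ℝ) ∈ FF s i) ∧ Good ρ (FF s) RQ := by
  have hcl : (∀ i p, QQ s i p ↔ ¬ evF s 1 i p p) ↔ ∀ i p, QQ s i p ↔ (p : ℝ) ∈ FF s i := by
    refine forall_congr' fun i => forall_congr' fun p => ?_
    rw [(rp_F hc 1 i).pt']
    have : ρ 1 '' FF s i = FF s i := by
      rw [map_one]
      simp [one_app]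
    rw [this]
  constructor
  · intro h
    have hrat := (rat_EE_iff hc).mp ⟨h.ratF, h.ratX, h.ratN⟩
    have hA := rp_A hc hrat
    have hratA := (hA.endRat_iff (isClosed_AA _)).mp h.ratA
    refine ⟨hcl.mp h.cl, ?_, ?_, ?_, ?_⟩
    · rintro p (hp | hp)
      · obtain ⟨q, rfl⟩ := hrat p hp
        exact ⟨q, rfl⟩
      · obtain ⟨q, rfl⟩ := hratA p hp
        exact ⟨q, rfl⟩
    · rintro _ ⟨q, rfl⟩ hq
      have h1 : ¬ evA s q q := (hA.pt' q).mpr hq
      rcases h.inter q h1 with h2 | h2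
      · exact Or.inl ((evE_iff hc q).mp h2)
      · rw [hA.evL_iff, hA.evR_iff] at h2
        exact Or.inr h2
    · rintro γ _ ⟨q, rfl⟩
      show ρ γ (q : ℝ) ∈ RQ
      rw [hc]
      exact ⟨_, rfl⟩
    · rintro _ ⟨p, rfl⟩ _ ⟨q, rfl⟩ hN hG
      have hG : GG ρ (FF s) (p : ℝ) q := hG
      have key : ∀ p q : ℚ, p ≤ q → (p : ℝ) ∈ NW ρ → GG ρ (FF s) (p : ℝ) q →
          ∃ γ, ρ γ p = q := by
        intro p q hpq hN hG
        have h1 : evA s p q := by
          rw [hA p q hpq]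
          intro t ht
          refine hG t ?_
          rw [uIcc_of_le (by exact_mod_cast hpq)]
          exact ht
        obtain ⟨γ, hγ⟩ := h.tr p q hpq (((rp_N hc).pt' p).mpr hN) h1
        exact ⟨γ, by rw [hc, hγ]⟩
      rcases le_total p q with h1 | h1
      · exact key p q h1 hN hG
      · obtain ⟨γ, hγ⟩ := key q p h1 (nw_const (isClosed_FF s) hG hN) hG.symm
        refine ⟨γ⁻¹, ?_⟩
        show ρ γ⁻¹ (p : ℝ) = q
        rw [← hγ, inv_act]
  · rintro ⟨h1, h2⟩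
    have hrat : ∀ t ∈ EE (Fam ρ (FF s)), ∃ p : ℚ, t = p := by
      intro t ht
      obtain ⟨q, rfl⟩ := h2.sub t (Or.inl ht)
      exact ⟨q, rfl⟩
    have hA := rp_A hc hrat
    obtain ⟨r1, r2, r3⟩ := (rat_EE_iff hc).mpr hrat
    refine ⟨hv, hcl.mpr h1, r1, r2, r3, ?_, ?_, ?_⟩
    · rw [hA.endRat_iff (isClosed_AA _)]
      intro t ht
      obtain ⟨q, rfl⟩ := h2.sub t (Or.inr ht)
      exact ⟨q, rfl⟩
    · intro p hp
      rw [hA.pt'] at hp
      rcases h2.inter p ⟨p, rfl⟩ hp with h3 | h3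
      · exact Or.inl ((evE_iff hc p).mpr h3)
      · rw [hA.evL_iff, hA.evR_iff]
        exact Or.inr h3
    · intro p q hpq hN hpqA
      rw [(rp_N hc).pt'] at hN
      rw [hA p q hpq] at hpqA
      have hG : GG ρ (FF s) (p : ℝ) q := by
        intro t ht
        rw [uIcc_of_le (by exact_mod_cast hpq)] at ht
        exact hpqA t ht
      obtain ⟨γ, hγ⟩ := h2.tr p ⟨p, rfl⟩ q ⟨q, rfl⟩ hN hG
      rw [hc] at hγ
      exact ⟨γ, by exact_mod_cast hγ⟩

end Pool.Agent.H642.TV
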