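import Mathlib

set_option autoImplicit false

/-!
Basic facts about order automorphisms of the real line: end points of closed sets, gaps,
extension of order isomorphisms between dense sets, and the orbits of one automorphism.
-/

open Set

namespace Pool.Agent.H642.TV

/-- `p` is a point of `S` that is isolated from the left in `S`. -/
def LEnd (S : Set ℝ) (p : ℝ) : Prop := p ∈ S ∧ ∃ u, u < p ∧ ∀ t, u < t → t < p → t ∉ S

/-- `p` is a point of `S` that is isolated from the right in `S`. -/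
def REnd (S : Set ℝ) (p : ℝ) : Prop := p ∈ S ∧ ∃ v, p < v ∧ ∀ t, p < t → t < v → t ∉ S

/-- `p` and `q` are in the same gap of `A`. -/
def SG (A : Set ℝ) (p q : ℝ) : Prop := ∀ t ∈ uIcc p q, t ∉ A

theorem SG.symm {A : Set ℝ} {p q : ℝ} (h : SG A p q) : SG A q p := by
  intro t ht
  rw [uIcc_comm] at ht
  exact h t ht

theorem SG.trans {A : Set ℝ} {p q r : ℝ} (h : SG A p q) (h' : SG A q r) : SG A p r := by
  intro t ht
  rcases uIcc_subset_uIcc_union_uIcc (b := q) ht with h1 | h1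
  · exact h t h1
  · exact h' t h1

theorem SG.refl {A : Set ℝ} {p : ℝ} (h : p ∉ A) : SG A p p := by
  intro t ht
  rw [uIcc_self] at ht
  have : t = p := ht
  rw [this]
  exact h

theorem SG.left {A : Set ℝ} {p q : ℝ} (h : SG A p q) : p ∉ A := h p left_mem_uIcc

theorem SG.right {A : Set ℝ} {p q : ℝ} (h : SG A p q) : q ∉ A := h q right_mem_uIcc

theorem SG.mem {A : Set ℝ} {p q t : ℝ} (h : SG A p q) (ht : t ∈ uIcc p q) : SG A p t := by
  intro s hs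
  exact h s (uIcc_subset_uIcc_left ht hs)

theorem SG.between {A : Set ℝ} {p a b t : ℝ} (ha : SG A p a) (hb : SG A p b) (h1 : a ≤ t)
    (h2 : t ≤ b) : SG A p t := by
  have h : SG A a b := ha.symm.trans hb
  exact ha.trans (h.mem (by rw [uIcc_of_le (h1.trans h2)]; exact ⟨h1, h2⟩))

theorem isOpen_gap {A : Set ℝ} (hA : IsClosed A) (p : ℝ) : IsOpen {q | SG A p q} := by
  rw [isOpen_iff_mem_nhds]
  intro q hq
  have hq' : q ∈ Aᶜ := SG.right hq
  obtain ⟨l, u, ⟨h1, h2⟩, h3⟩ := mem_nhds_iff_exists_Ioo_subset.mp (hA.isOpen_compl.mem_nhds hq')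
  refine Filter.mem_of_superset (Ioo_mem_nhds h1 h2) fun t ht => ?_
  refine SG.trans hq fun s hs => ?_
  have : s ∈ Ioo l u := (ordConnected_Ioo).uIcc_subset ⟨h1, h2⟩ ht hs
  exact h3 this

theorem ordConnected_gap {A : Set ℝ} (p : ℝ) : OrdConnected {q | SG A p q} := by
  constructor
  intro x hx y hy t ht
  exact SG.between hx hy ht.1 ht.2

/-! ### Automorphisms of the line -/

theorem mul_app (f g : ℝ ≃o ℝ) (x : ℝ) : (f * g) x = f (g x) := rfl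

theorem inv_app_self (f : ℝ ≃o ℝ) (x : ℝ) : f⁻¹ (f x) = x := f.symm_apply_apply x

theorem app_inv_self (f : ℝ ≃o ℝ) (x : ℝ) : f (f⁻¹ x) = x := f.apply_symm_apply x

theorem one_app (x : ℝ) : (1 : ℝ ≃o ℝ) x = x := rfl

theorem lt_inv_app {f : ℝ ≃o ℝ} {x y : ℝ} : x < f⁻¹ y ↔ f x < y := by
  rw [← f.lt_iff_lt, app_inv_self]

theorem inv_app_lt {f : ℝ ≃o ℝ} {x y : ℝ} : f⁻¹ x < y ↔ x < f y := by
  rw [← f.lt_iff_lt, app_inv_self]

theorem le_inv_app {f : ℝ ≃o ℝ} {x y : ℝ} : x ≤ f⁻¹ y ↔ f x ≤ y := by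
  rw [← f.le_iff_le, app_inv_self]

theorem inv_app_le {f : ℝ ≃o ℝ} {x y : ℝ} : f⁻¹ x ≤ y ↔ x ≤ f y := by
  rw [← f.le_iff_le, app_inv_self]

theorem mem_image_iso {g : ℝ ≃o ℝ} {S : Set ℝ} {x : ℝ} : x ∈ g '' S ↔ g⁻¹ x ∈ S := by
  constructor
  · rintro ⟨y, hy, rfl⟩
    rw [inv_app_self]
    exact hy
  · intro h
    exact ⟨g⁻¹ x, h, app_inv_self g x⟩

theorem image_mul (f g : ℝ ≃o ℝ) (S : Set ℝ) : (f * g) '' S = f '' (g '' S) := by
  rw [image_image]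
  rfl

theorem isClosed_image (g : ℝ ≃o ℝ) {S : Set ℝ} (hS : IsClosed S) : IsClosed (g '' S) :=
  (g.toHomeomorph.isClosed_image).mpr hS

theorem image_closure_iso (g : ℝ ≃o ℝ) (S : Set ℝ) : g '' closure S = closure (g '' S) :=
  g.toHomeomorph.image_closure S

theorem LEnd.map {S : Set ℝ} {p : ℝ} (h : LEnd S p) (g : ℝ ≃o ℝ) : LEnd (g '' S) (g p) := by
  obtain ⟨h1, u, h2, h3⟩ := h
  refine ⟨mem_image_of_mem g h1, g u, g.lt_iff_lt.mpr h2, fun t ht ht' hmem => ?_⟩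
  rw [mem_image_iso] at hmem
  exact h3 (g⁻¹ t) (lt_inv_app.mpr ht) (inv_app_lt.mpr ht') hmem

theorem REnd.map {S : Set ℝ} {p : ℝ} (h : REnd S p) (g : ℝ ≃o ℝ) : REnd (g '' S) (g p) := by
  obtain ⟨h1, u, h2, h3⟩ := h
  refine ⟨mem_image_of_mem g h1, g u, g.lt_iff_lt.mpr h2, fun t ht ht' hmem => ?_⟩
  rw [mem_image_iso] at hmem
  exact h3 (g⁻¹ t) (lt_inv_app.mpr ht) (inv_app_lt.mpr ht') hmem

theorem SG.map {A : Set ℝ} {p q : ℝ} (h : SG A p q) (g : ℝ ≃o ℝ) : SG (g '' A) (g p) (g q) := by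
  intro t ht hmem
  rw [mem_image_iso] at hmem
  refine h (g⁻¹ t) ?_ hmem
  rw [mem_uIcc] at ht ⊢
  rcases ht with ⟨h1, h2⟩ | ⟨h1, h2⟩
  · exact Or.inl ⟨le_inv_app.mpr h1, inv_app_le.mpr h2⟩
  · exact Or.inr ⟨le_inv_app.mpr h1, inv_app_le.mpr h2⟩

/-- Membership in a closed set `S` is constant on the gaps of a set that contains all end points
of `S`. -/
theorem const {S A : Set ℝ} (hS : IsClosed S) (hA : ∀ t, LEnd S t ∨ REnd S t → t ∈ A) {p q : ℝ}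
    (h : SG A p q) (hp : p ∈ S) : q ∈ S := by
  by_contra hq
  rcases lt_trichotomy p q with h1 | h1 | h1
  · have hne : (S ∩ Icc p q).Nonempty := ⟨p, hp, left_mem_Icc.mpr h1.le⟩
    have hbd : BddAbove (S ∩ Icc p q) := ⟨q, fun x hx => hx.2.2⟩
    have hs := (hS.inter isClosed_Icc).csSup_mem hne hbd
    set s := sSup (S ∩ Icc p q) with hsdef
    have hsq : s < q := lt_of_le_of_ne hs.2.2 (fun he => hq (he ▸ hs.1))
    have hend : REnd S s := by
      refine ⟨hs.1, q, hsq, fun t ht ht' hmem => ?_⟩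
      have : t ≤ s := le_csSup hbd ⟨hmem, hs.2.1.trans ht.le, ht'.le⟩
      exact absurd ht (not_lt.mpr this)
    exact h s (by rw [uIcc_of_le h1.le]; exact hs.2) (hA s (Or.inr hend))
  · exact hq (h1 ▸ hp)
  · have hne : (S ∩ Icc q p).Nonempty := ⟨p, hp, right_mem_Icc.mpr h1.le⟩
    have hbd : BddBelow (S ∩ Icc q p) := ⟨q, fun x hx => hx.2.1⟩
    have hs := (hS.inter isClosed_Icc).csInf_mem hne hbd
    set s := sInf (S ∩ Icc q p) with hsdef
    have hsq : q < s := lt_of_le_of_ne hs.2.1 (fun he => hq (he ▸ hs.1))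
    have hend : LEnd S s := by
      refine ⟨hs.1, q, hsq, fun t ht ht' hmem => ?_⟩
      have : s ≤ t := csInf_le hbd ⟨hmem, ht.le, ht'.le.trans hs.2.2⟩
      exact absurd ht' (not_lt.mpr this)
    exact h s (by rw [uIcc_of_ge h1.le]; exact hs.2) (hA s (Or.inl hend))

/-- The set of end points of a set is countable. -/
theorem countable_ends (S : Set ℝ) : {p | LEnd S p ∨ REnd S p}.Countable := by
  have h1 : {p | LEnd S p}.Countable := by
    have : ∀ p : {p | LEnd S p}, ∃ q : ℚ, (q : ℝ) < p ∧ ∀ t, (q : ℝ) < t → t < p → t ∉ S := by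
      rintro ⟨p, hp⟩
      obtain ⟨h1, u, h2, h3⟩ := hp
      obtain ⟨q, hq1, hq2⟩ := exists_rat_btwn h2
      exact ⟨q, hq2, fun t ht ht' => h3 t (hq1.trans ht) ht'⟩
    choose f hf1 hf2 using this
    rw [← countable_coe_iff]
    refine Function.Injective.countable (f := f) fun p p' hpp => ?_
    rcases lt_trichotomy p.1 p'.1 with h | h | h
    · exact absurd p.2.1 (hf2 p' p.1 (by rw [← hpp]; exact hf1 p) h)
    · exact Subtype.ext h
    · exact absurd p'.2.1 (hf2 p p'.1 (by rw [hpp]; exact hf1 p') h)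
  have h2 : {p | REnd S p}.Countable := by
    have : ∀ p : {p | REnd S p}, ∃ q : ℚ, (p : ℝ) < (q : ℝ) ∧
        ∀ t : ℝ, (p : ℝ) < t → t < (q : ℝ) → t ∉ S := by
      rintro ⟨p, hp⟩
      obtain ⟨h1, u, h2, h3⟩ := hp
      obtain ⟨q, hq1, hq2⟩ := exists_rat_btwn h2
      exact ⟨q, hq1, fun t ht ht' => h3 t ht (ht'.trans hq2)⟩
    choose f hf1 hf2 using this
    rw [← countable_coe_iff]
    refine Function.Injective.countable (f := f) fun p p' hpp => ?_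
    rcases lt_trichotomy p.1 p'.1 with h | h | h
    · exact absurd p'.2.1 (hf2 p p'.1 h (by rw [hpp]; exact hf1 p'))
    · exact Subtype.ext h
    · exact absurd p.2.1 (hf2 p' p.1 h (by rw [← hpp]; exact hf1 p))
  exact h1.union h2

/-! ### Extension of order isomorphisms between dense sets -/

/-- An order isomorphism between two dense sets extends to the line. -/
theorem ext_dense {D D' : Set ℝ} (hD : Dense D) (hD' : Dense D') (φ : ℝ → ℝ)
    (hm : StrictMonoOn φ D) (him : SurjOn φ D D') : ∃ g : ℝ ≃o ℝ, ∀ d ∈ D, g d = φ d := by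
  set g : ℝ → ℝ := fun x => sSup (φ '' (D ∩ Iic x)) with hg
  have hne : ∀ x, (φ '' (D ∩ Iic x)).Nonempty := fun x => by
    obtain ⟨d, hd, hdx⟩ := hD.exists_lt x
    exact ⟨φ d, d, ⟨hd, hdx.le⟩, rfl⟩
  have hbd : ∀ x, BddAbove (φ '' (D ∩ Iic x)) := fun x => by
    obtain ⟨d, hd, hdx⟩ := hD.exists_gt x
    refine ⟨φ d, ?_⟩
    rintro _ ⟨e, ⟨he, hex⟩, rfl⟩
    exact hm.monotoneOn he hd (le_trans hex hdx.le)
  have hle : ∀ x, ∀ d ∈ D, x ≤ d → g x ≤ φ d := fun x d hd hxd => by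
    refine csSup_le (hne x) ?_
    rintro _ ⟨e, ⟨he, hex⟩, rfl⟩
    exact hm.monotoneOn he hd (le_trans hex hxd)
  have hge : ∀ x, ∀ d ∈ D, d ≤ x → φ d ≤ g x := fun x d hd hxd =>
    le_csSup (hbd x) ⟨d, ⟨hd, hxd⟩, rfl⟩
  have hgd : ∀ d ∈ D, g d = φ d := fun d hd =>
    le_antisymm (hle d d hd le_rfl) (hge d d hd le_rfl)
  have hmono : StrictMono g := by
    intro x y hxy
    obtain ⟨z, hz1, hz2⟩ := exists_between hxy
    obtain ⟨d1, hd1, h1, h1'⟩ := hD.exists_between hz1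
    obtain ⟨d2, hd2, h2, h2'⟩ := hD.exists_between hz2
    calc g x ≤ φ d1 := hle x d1 hd1 h1.le
      _ < φ d2 := hm hd1 hd2 (h1'.trans h2)
      _ ≤ g y := hge y d2 hd2 h2'.le
  have hdr : DenseRange g := by
    refine hD'.mono ?_
    intro e he
    obtain ⟨d, hd, rfl⟩ := him he
    exact ⟨d, hgd d hd⟩
  have hcont : Continuous g := hmono.monotone.continuous_of_denseRange hdr
  have hsurj : Function.Surjective g := by
    intro y
    obtain ⟨_, ⟨x1, rfl⟩, h1⟩ := hdr.exists_lt y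
    obtain ⟨_, ⟨x2, rfl⟩, h2⟩ := hdr.exists_gt y
    exact mem_range_of_exists_le_of_exists_ge hcont ⟨x1, h1.le⟩ ⟨x2, h2.le⟩
  exact ⟨hmono.orderIsoOfSurjective g hsurj, fun d hd => hgd d hd⟩

theorem iso_ext {D : Set ℝ} (hD : Dense D) {g h : ℝ ≃o ℝ} (hgh : ∀ d ∈ D, g d = h d) : g = h := by
  have : (g : ℝ → ℝ) = h := Continuous.ext_on hD g.continuous h.continuous hgh
  exact DFunLike.coe_injective this

/-! ### Cantor's theorem -/

theorem cantor {D D' I I' : Set ℝ} (cD : D.Countable) (dD : Dense D) (cD' : D'.Countable)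
    (dD' : Dense D') (hI : IsOpen I) (oI : I.OrdConnected) (nI : I.Nonempty)
    (hI' : IsOpen I') (oI' : I'.OrdConnected) (nI' : I'.Nonempty) :
    ∃ τ : ℝ → ℝ, (∀ d ∈ D ∩ I, τ d ∈ D' ∩ I') ∧ StrictMonoOn τ (D ∩ I) ∧
      SurjOn τ (D ∩ I) (D' ∩ I') := by
  have key : ∀ {D I : Set ℝ}, D.Countable → Dense D → IsOpen I → I.OrdConnected → I.Nonempty →
      Countable (D ∩ I : Set ℝ) ∧ DenselyOrdered (D ∩ I : Set ℝ) ∧ NoMinOrder (D ∩ I : Set ℝ) ∧
        NoMaxOrder (D ∩ I : Set ℝ) ∧ Nonempty (D ∩ I : Set ℝ) := by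
    intro D I cD dD hI oI nI
    refine ⟨(cD.mono inter_subset_left).to_subtype, ⟨?_⟩, ⟨?_⟩, ⟨?_⟩, ?_⟩
    · rintro ⟨a, ha, ha'⟩ ⟨b, hb, hb'⟩ hab
      obtain ⟨c, hc, h1, h2⟩ := dD.exists_between (show a < b from hab)
      exact ⟨⟨c, hc, oI.out ha' hb' ⟨h1.le, h2.le⟩⟩, h1, h2⟩
    · rintro ⟨a, ha, ha'⟩
      obtain ⟨l, u, ⟨h1, h2⟩, h3⟩ := mem_nhds_iff_exists_Ioo_subset.mp (hI.mem_nhds ha')
      obtain ⟨c, hc, h4, h5⟩ := dD.exists_between h1
      exact ⟨⟨c, hc, h3 ⟨h4, h5.trans h2⟩⟩, h5⟩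
    · rintro ⟨a, ha, ha'⟩
      obtain ⟨l, u, ⟨h1, h2⟩, h3⟩ := mem_nhds_iff_exists_Ioo_subset.mp (hI.mem_nhds ha')
      obtain ⟨c, hc, h4, h5⟩ := dD.exists_between h2
      exact ⟨⟨c, hc, h3 ⟨h1.trans h4, h5⟩⟩, h4⟩
    · obtain ⟨c, hc, hc'⟩ := dD.exists_mem_open hI nI
      exact ⟨⟨c, hc, hc'⟩⟩
  obtain ⟨a1, a2, a3, a4, a5⟩ := key cD dD hI oI nI
  obtain ⟨b1, b2, b3, b4, b5⟩ := key cD' dD' hI' oI' nI'
  obtain ⟨e⟩ := Order.iso_of_countable_dense (D ∩ I : Set ℝ) (D' ∩ I' : Set ℝ)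
  classical
  refine ⟨fun d => if h : d ∈ D ∩ I then (e ⟨d, h⟩ : ℝ) else 0, fun d hd => ?_, ?_, ?_⟩
  · simp only [dif_pos hd]
    exact (e ⟨d, hd⟩).2
  · intro x hx y hy hxy
    simp only [dif_pos hx, dif_pos hy]
    exact e.lt_iff_lt.mpr hxy
  · intro y hy
    refine ⟨(e.symm ⟨y, hy⟩ : ℝ), (e.symm ⟨y, hy⟩).2, ?_⟩
    have : ((e.symm ⟨y, hy⟩ : ℝ)) ∈ D ∩ I := (e.symm ⟨y, hy⟩).2
    simp only [dif_pos this]
    simp

end Pool.Agent.H642.TV
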