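import Pool.Agent.H642.TV.Uniq

set_option autoImplicit false

/-!
Existence of good countable dense sets.
-/

open Set

namespace Pool.Agent.H642.TV

variable {Γ : Type} [Group Γ] {ρ : Γ →* (ℝ ≃o ℝ)} {F : ℕ → Set ℝ}

theorem self_nw_iff (γ : Γ) {x : ℝ} : ρ γ x ∈ NW ρ ↔ x ∈ NW ρ := by
  refine ⟨fun h => ?_, self_NW γ⟩
  have := self_NW γ⁻¹ h
  rwa [inv_act] at this

theorem exists_good [Countable Γ] (hF : ∀ i, IsClosed (F i)) :
    ∃ D : Set ℝ, D.Countable ∧ Dense D ∧ Good ρ F D := by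
  set D1 : Set ℝ := {d | ∃ (γ : Γ) (x : ℚ), (x : ℝ) ∉ AR ρ F ∧ (x : ℝ) ∉ NW ρ ∧ d = ρ γ x} with hD1
  set D2 : Set ℝ := {d | ∃ (γ : Γ) (x : ℚ), (x : ℝ) ∉ AR ρ F ∧ (x : ℝ) ∈ NW ρ ∧
    d = ρ γ (rep ρ F x)} with hD2
  have hact : ∀ (γ : Γ) (x : ℝ), ρ γ x ∈ AR ρ F ↔ x ∈ AR ρ F := fun γ x => (self_comp γ).AA_mem
  have hrepA : ∀ d, d ∉ AR ρ F → rep ρ F d ∉ AR ρ F := fun d hd => (rep_spec hd).choose_spec.right
  have hrepN : ∀ d, d ∉ AR ρ F → (rep ρ F d ∈ NW ρ ↔ d ∈ NW ρ) := by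
    intro d hd
    obtain ⟨γ, hγ⟩ := rep_spec hd
    constructor
    · intro h
      exact (self_nw_iff γ).mp (nw_const hF hγ.symm h)
    · intro h
      exact nw_const hF hγ ((self_nw_iff γ).mpr h)
  have hD1A : ∀ d ∈ D1, d ∉ AR ρ F ∧ d ∉ NW ρ := by
    rintro _ ⟨γ, x, h1, h2, rfl⟩
    exact ⟨fun h => h1 ((hact _ _).mp h), fun h => h2 ((self_nw_iff γ).mp h)⟩
  have hD2A : ∀ d ∈ D2, d ∉ AR ρ F ∧ d ∈ NW ρ := by
    rintro _ ⟨γ, x, h1, h2, rfl⟩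
    exact ⟨fun h => hrepA _ h1 ((hact _ _).mp h), (self_nw_iff γ).mpr ((hrepN _ h1).mpr h2)⟩
  refine ⟨DZ (Fam ρ F) ∪ D1 ∪ D2, ?_, ?_, ?_⟩
  · refine ((countable_DZ Fam.countable).union ?_).union ?_
    · refine (countable_range fun p : Γ × ℚ => ρ p.1 (p.2 : ℝ)).mono ?_
      rintro _ ⟨γ, x, _, _, rfl⟩
      exact ⟨(γ, x), rfl⟩
    · refine (countable_range fun p : Γ × ℚ => ρ p.1 (rep ρ F (p.2 : ℝ))).mono ?_
      rintro _ ⟨γ, x, _, _, rfl⟩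
      exact ⟨(γ, x), rfl⟩
  · rw [dense_iff_exists_between]
    intro u v huv
    by_cases hA : ∃ a ∈ AR ρ F, u < a ∧ a < v
    · obtain ⟨a, ha, h1, h2⟩ := hA
      have h3 : (Ioo u v ∩ EE (Fam ρ F)).Nonempty :=
        mem_closure_iff.mp ha (Ioo u v) isOpen_Ioo ⟨h1, h2⟩
      obtain ⟨e, he1, he2⟩ := h3
      exact ⟨e, Or.inl (Or.inl (Or.inl he2)), he1.1, he1.2⟩
    · push Not at hA
      obtain ⟨x, hx1, hx2⟩ := exists_rat_btwn huv
      have hxA : (x : ℝ) ∉ AR ρ F := fun h => absurd hx2 (not_lt.mpr (hA _ h hx1))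
      by_cases hxN : (x : ℝ) ∈ NW ρ
      · obtain ⟨γ, hγ⟩ := rep_spec hxA
        obtain ⟨y, hy1, hy2⟩ := exists_between hx1
        have hxy : GG ρ F y x := by
          intro s hs hsA
          rw [uIcc_of_le hy2.le] at hs
          exact absurd (lt_of_le_of_lt hs.2 hx2) (not_lt.mpr (hA s hsA (hy1.trans_le hs.1)))
        have hp : GG ρ F (ρ γ⁻¹ (rep ρ F x)) x := by
          have := hγ.act γ⁻¹
          rw [inv_act] at this
          exact this.symm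
        have hpN : ρ γ⁻¹ (rep ρ F x) ∈ NW ρ := nw_const hF hp.symm hxN
        obtain ⟨δ, h1, h2⟩ := minim hF hpN hy2 (hp.trans hxy.symm) hp
        refine ⟨ρ δ (ρ γ⁻¹ (rep ρ F x)), Or.inr ⟨δ * γ⁻¹, x, hxA, hxN, ?_⟩, hy1.trans h1,
          h2.trans hx2⟩
        rw [act_mul]
      · refine ⟨x, Or.inl (Or.inr ⟨1, x, hxA, hxN, ?_⟩), hx1, hx2⟩
        rw [map_one, one_app]
  · refine ⟨fun p hp => Or.inl (Or.inl hp), ?_, ?_, ?_⟩
    · rintro p ((hp | hp) | hp) hA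
      · exact hp
      · exact absurd hA (hD1A p hp).1
      · exact absurd hA (hD2A p hp).1
    · rintro γ p ((hp | hp) | hp)
      · exact Or.inl (Or.inl ((self_comp γ).DZ_mem hp))
      · obtain ⟨δ, x, h1, h2, rfl⟩ := hp
        exact Or.inl (Or.inr ⟨γ * δ, x, h1, h2, by rw [act_mul]⟩)
      · obtain ⟨δ, x, h1, h2, rfl⟩ := hp
        exact Or.inr ⟨γ * δ, x, h1, h2, by rw [act_mul]⟩
    · intro p hp q hq hpN hpq
      have hpA := hpq.left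
      have hqA := hpq.right
      have hqN : q ∈ NW ρ := nw_const hF hpq hpN
      have key : ∀ z ∈ DZ (Fam ρ F) ∪ D1 ∪ D2, z ∉ AR ρ F → z ∈ NW ρ → z ∈ D2 := by
        rintro z ((hz | hz) | hz) h1 h2
        · exact absurd (DZ_sub_AA _ hz) h1
        · exact absurd h2 (hD1A z hz).2
        · exact hz
      obtain ⟨γ, x, hx1, hx2, rfl⟩ := key p hp hpA hpN
      obtain ⟨δ, y, hy1, hy2, rfl⟩ := key q hq hqA hqN
      have h1 : rep ρ F x = rep ρ F y := by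
        have hE := RR.equivalence (ρ := ρ) (F := F)
        -- `x ~ rep x ~ γ rep x ~ δ rep y ~ rep y ~ y`
        have a1 : RR ρ F x (rep ρ F x) := hE.symm (rep_rel _)
        have a2 : RR ρ F (rep ρ F x) (ρ γ (rep ρ F x)) :=
          Or.inr ⟨γ, SG.refl hpA⟩
        have a3 : RR ρ F (ρ γ (rep ρ F x)) (ρ δ (rep ρ F y)) :=
          Or.inr ⟨1, by rw [map_one, one_app]; exact hpq⟩
        have a4 : RR ρ F (rep ρ F y) (ρ δ (rep ρ F y)) := Or.inr ⟨δ, SG.refl hqA⟩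
        have a5 : RR ρ F (rep ρ F y) y := rep_rel _
        exact rep_eq (hE.trans a1 (hE.trans a2 (hE.trans a3 (hE.trans (hE.symm a4) a5))))
      refine ⟨δ * γ⁻¹, ?_⟩
      rw [act_mul, inv_act, h1]

end Pool.Agent.H642.TV
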