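import Pool.Agent.H642.TV.Basic

set_option autoImplicit false

/-!
Actions of a group on the line with closed sets: the set of marked points, the gaps, minimality
inside a gap, generators of the stabiliser of a gap.
-/

open Set

namespace Pool.Agent.H642.TV

/-! ### Orbits of one automorphism -/

theorem esc_up {f : ℝ ≃o ℝ} {a p : ℝ} (h : ∀ t ∈ Icc a p, t < f t) :
    ∃ n : ℕ, p < (f ^ n) a := by
  by_contra hcon
  push Not at hcon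
  have hstep : ∀ n : ℕ, (f ^ (n + 1)) a = f ((f ^ n) a) := fun n => by
    rw [pow_succ', mul_app]
  have hne : (range fun n : ℕ => (f ^ n) a).Nonempty := ⟨_, 0, rfl⟩
  have hbd : BddAbove (range fun n : ℕ => (f ^ n) a) := ⟨p, by rintro _ ⟨n, rfl⟩; exact hcon n⟩
  set s := sSup (range fun n : ℕ => (f ^ n) a) with hs
  have h1 : a ≤ s := le_csSup hbd ⟨0, rfl⟩
  have h2 : s ≤ p := csSup_le hne (by rintro _ ⟨n, rfl⟩; exact hcon n)
  have h3 : f⁻¹ s < s := inv_app_lt.mpr (h s ⟨h1, h2⟩)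
  obtain ⟨_, ⟨n, rfl⟩, hn⟩ := exists_lt_of_lt_csSup hne h3
  have h4 : s < (f ^ (n + 1)) a := by
    rw [hstep]
    exact inv_app_lt.mp hn
  exact absurd (le_csSup hbd ⟨n + 1, rfl⟩) (not_le.mpr h4)

theorem esc_down {f : ℝ ≃o ℝ} {a p : ℝ} (h : ∀ t ∈ Icc p a, t < f t) :
    ∃ n : ℕ, (f⁻¹ ^ n) a < p := by
  by_contra hcon
  push Not at hcon
  have hstep : ∀ n : ℕ, (f⁻¹ ^ (n + 1)) a = f⁻¹ ((f⁻¹ ^ n) a) := fun n => by
    rw [pow_succ', mul_app]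
  have hne : (range fun n : ℕ => (f⁻¹ ^ n) a).Nonempty := ⟨_, 0, rfl⟩
  have hbd : BddBelow (range fun n : ℕ => (f⁻¹ ^ n) a) :=
    ⟨p, by rintro _ ⟨n, rfl⟩; exact hcon n⟩
  set s := sInf (range fun n : ℕ => (f⁻¹ ^ n) a) with hs
  have h1 : s ≤ a := csInf_le hbd ⟨0, rfl⟩
  have h2 : p ≤ s := le_csInf hne (by rintro _ ⟨n, rfl⟩; exact hcon n)
  have h3 : s < f s := h s ⟨h2, h1⟩
  obtain ⟨_, ⟨n, rfl⟩, hn⟩ := exists_lt_of_csInf_lt hne h3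
  have h4 : (f⁻¹ ^ (n + 1)) a < s := by
    rw [hstep]
    exact inv_app_lt.mpr hn
  exact absurd (csInf_le hbd ⟨n + 1, rfl⟩) (not_le.mpr h4)

theorem zpow_strictMono {f : ℝ ≃o ℝ} {a : ℝ} {J : Set ℝ} (hJ : ∀ t ∈ J, f t ∈ J)
    (hJ' : ∀ t ∈ J, f⁻¹ t ∈ J) (h : ∀ t ∈ J, t < f t) (ha : a ∈ J) :
    (∀ n : ℤ, (f ^ n) a ∈ J) ∧ StrictMono fun n : ℤ => (f ^ n) a := by
  have hmem : ∀ n : ℤ, (f ^ n) a ∈ J := by
    intro n
    induction n using Int.induction_on with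
    | zero => exact ha
    | succ n ih =>
      rw [add_comm, zpow_add, zpow_one, mul_app]
      exact hJ _ ih
    | pred n ih =>
      rw [sub_eq_add_neg, add_comm, zpow_add, zpow_neg_one, mul_app]
      exact hJ' _ ih
  refine ⟨hmem, strictMono_int_of_lt_succ fun n => ?_⟩
  show (f ^ n) a < (f ^ (n + 1)) a
  rw [add_comm, zpow_add, zpow_one, mul_app]
  exact h _ (hmem n)

/-- The orbit of `a` under an automorphism `f` that moves all points of `J` to the right. -/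
theorem esc {f : ℝ ≃o ℝ} {a p : ℝ} {J : Set ℝ} (oJ : J.OrdConnected) (hJ : ∀ t ∈ J, f t ∈ J)
    (hJ' : ∀ t ∈ J, f⁻¹ t ∈ J) (h : ∀ t ∈ J, t < f t) (ha : a ∈ J) (hp : p ∈ J) :
    ∃ n : ℤ, (f ^ n) a ≤ p ∧ p < (f ^ (n + 1)) a := by
  obtain ⟨hmem, hmono⟩ := zpow_strictMono hJ hJ' h ha
  have hup : ∃ n : ℤ, p < (f ^ n) a := by
    rcases le_or_gt a p with h1 | h1
    · obtain ⟨n, hn⟩ := esc_up fun t ht => h t (oJ.out ha hp ht)
      exact ⟨n, by rw [zpow_natCast]; exact hn⟩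
    · exact ⟨0, h1⟩
  have hdown : ∃ n : ℤ, (f ^ n) a ≤ p := by
    rcases le_or_gt a p with h1 | h1
    · exact ⟨0, h1⟩
    · obtain ⟨n, hn⟩ := esc_down fun t ht => h t (oJ.out hp ha ht)
      refine ⟨-n, ?_⟩
      rw [zpow_neg, zpow_natCast, ← inv_pow]
      exact hn.le
  obtain ⟨m, hm⟩ := hup
  have hb : ∀ z : ℤ, (f ^ z) a ≤ p → z ≤ m := fun z hz =>
    (hmono.lt_iff_lt.mp (lt_of_le_of_lt hz hm)).le
  obtain ⟨n, hn1, hn2⟩ := Int.exists_greatest_of_bdd ⟨m, hb⟩ hdown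
  refine ⟨n, hn1, ?_⟩
  by_contra hcon
  exact absurd (hn2 (n + 1) (not_lt.mp hcon)) (by omega)

/-! ### Families of closed sets -/

/-- The end points of the members of a family. -/
def EE (𝓢 : Set (Set ℝ)) : Set ℝ := {p | ∃ S ∈ 𝓢, LEnd S p ∨ REnd S p}

/-- The closure of the set of end points. -/
def AA (𝓢 : Set (Set ℝ)) : Set ℝ := closure (EE 𝓢)

/-- The marked points. -/
def DZ (𝓢 : Set (Set ℝ)) : Set ℝ := EE 𝓢 ∪ {p | LEnd (AA 𝓢) p ∨ REnd (AA 𝓢) p}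

theorem isClosed_AA (𝓢 : Set (Set ℝ)) : IsClosed (AA 𝓢) := isClosed_closure

theorem DZ_sub_AA (𝓢 : Set (Set ℝ)) : DZ 𝓢 ⊆ AA 𝓢 := by
  rintro p (h | h | h)
  · exact subset_closure h
  · exact h.1
  · exact h.1

theorem countable_DZ {𝓢 : Set (Set ℝ)} (h : 𝓢.Countable) : (DZ 𝓢).Countable := by
  refine Countable.union ?_ (countable_ends _)
  have : EE 𝓢 = ⋃ S ∈ 𝓢, {p | LEnd S p ∨ REnd S p} := by
    ext p
    simp [EE]
  rw [this]
  exact h.biUnion fun S _ => countable_ends S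

/-- `g` maps the family `𝓢` onto the family `𝓣`. -/
def Comp (g : ℝ ≃o ℝ) (𝓢 𝓣 : Set (Set ℝ)) : Prop :=
  (∀ S ∈ 𝓢, g '' S ∈ 𝓣) ∧ ∀ S ∈ 𝓣, (g⁻¹ : ℝ ≃o ℝ) '' S ∈ 𝓢

theorem Comp.symm {g : ℝ ≃o ℝ} {𝓢 𝓣 : Set (Set ℝ)} (h : Comp g 𝓢 𝓣) : Comp g⁻¹ 𝓣 𝓢 :=
  ⟨h.2, by rw [inv_inv]; exact h.1⟩

theorem Comp.EE_mem {g : ℝ ≃o ℝ} {𝓢 𝓣 : Set (Set ℝ)} (h : Comp g 𝓢 𝓣) {p : ℝ} (hp : p ∈ EE 𝓢) :
    g p ∈ EE 𝓣 := by
  obtain ⟨S, hS, h1 | h1⟩ := hp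
  · exact ⟨g '' S, h.1 S hS, Or.inl (h1.map g)⟩
  · exact ⟨g '' S, h.1 S hS, Or.inr (h1.map g)⟩

theorem image_eq_of {g : ℝ ≃o ℝ} {S T : Set ℝ} (h1 : ∀ p ∈ S, g p ∈ T) (h2 : ∀ p ∈ T, g⁻¹ p ∈ S) :
    g '' S = T := by
  ext p
  rw [mem_image_iso]
  refine ⟨fun h => ?_, h2 p⟩
  have := h1 _ h
  rwa [app_inv_self] at this

theorem Comp.EE_eq {g : ℝ ≃o ℝ} {𝓢 𝓣 : Set (Set ℝ)} (h : Comp g 𝓢 𝓣) : g '' EE 𝓢 = EE 𝓣 :=
  image_eq_of (fun _ hp => h.EE_mem hp) (fun _ hp => h.symm.EE_mem hp)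

theorem Comp.AA_eq {g : ℝ ≃o ℝ} {𝓢 𝓣 : Set (Set ℝ)} (h : Comp g 𝓢 𝓣) : g '' AA 𝓢 = AA 𝓣 := by
  rw [AA, image_closure_iso, h.EE_eq]
  rfl

theorem Comp.DZ_mem {g : ℝ ≃o ℝ} {𝓢 𝓣 : Set (Set ℝ)} (h : Comp g 𝓢 𝓣) {p : ℝ} (hp : p ∈ DZ 𝓢) :
    g p ∈ DZ 𝓣 := by
  rcases hp with h1 | h1 | h1
  · exact Or.inl (h.EE_mem h1)
  · have := h1.map g
    rw [h.AA_eq] at this
    exact Or.inr (Or.inl this)
  · have := h1.map g
    rw [h.AA_eq] at this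
    exact Or.inr (Or.inr this)

theorem Comp.SG_map {g : ℝ ≃o ℝ} {𝓢 𝓣 : Set (Set ℝ)} (h : Comp g 𝓢 𝓣) {p q : ℝ}
    (hp : SG (AA 𝓢) p q) : SG (AA 𝓣) (g p) (g q) := by
  have := hp.map g
  rwa [h.AA_eq] at this

theorem Comp.SG_iff {g : ℝ ≃o ℝ} {𝓢 𝓣 : Set (Set ℝ)} (h : Comp g 𝓢 𝓣) {p q : ℝ} :
    SG (AA 𝓣) (g p) (g q) ↔ SG (AA 𝓢) p q := by
  refine ⟨fun h1 => ?_, h.SG_map⟩
  have := h.symm.SG_map h1
  rwa [inv_app_self, inv_app_self] at this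

theorem Comp.AA_mem {g : ℝ ≃o ℝ} {𝓢 𝓣 : Set (Set ℝ)} (h : Comp g 𝓢 𝓣) {p : ℝ} :
    g p ∈ AA 𝓣 ↔ p ∈ AA 𝓢 := by
  rw [← h.AA_eq, mem_image_iso, inv_app_self]

/-! ### Actions -/

variable {Γ : Type} [Group Γ]

/-- `(u, v)` is a wandering interval: every element of `Γ` moves it off itself or fixes it
pointwise. -/
def WI (ρ : Γ →* (ℝ ≃o ℝ)) (u v : ℝ) : Prop :=
  ∀ γ, v ≤ ρ γ u ∨ ρ γ v ≤ u ∨ ∀ z, u < z → z < v → ρ γ z = z

/-- The nonwandering set. -/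
def NW (ρ : Γ →* (ℝ ≃o ℝ)) : Set ℝ := {t | ∀ u v, u < t → t < v → ¬ WI ρ u v}

/-- The family of closed sets attached to an action and a sequence of closed sets. -/
def Fam (ρ : Γ →* (ℝ ≃o ℝ)) (F : ℕ → Set ℝ) : Set (Set ℝ) :=
  (range fun p : Γ × ℕ => ρ p.1 '' F p.2) ∪ (range fun γ : Γ => {t | ρ γ t = t}) ∪ {NW ρ}

variable {ρ : Γ →* (ℝ ≃o ℝ)} {F : ℕ → Set ℝ}

theorem Fam.image_mem (γ : Γ) (i : ℕ) : ρ γ '' F i ∈ Fam ρ F := Or.inl (Or.inl ⟨(γ, i), rfl⟩)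

theorem Fam.fix_mem (γ : Γ) : {t | ρ γ t = t} ∈ Fam ρ F := Or.inl (Or.inr ⟨γ, rfl⟩)

theorem Fam.nw_mem : NW ρ ∈ Fam ρ F := Or.inr rfl

theorem Fam.base_mem (i : ℕ) : F i ∈ Fam ρ F := by
  have := Fam.image_mem (ρ := ρ) (F := F) 1 i
  rw [map_one] at this
  simpa [one_app] using this

theorem isClosed_NW : IsClosed (NW ρ) := by
  rw [← isOpen_compl_iff, isOpen_iff_mem_nhds]
  intro t ht
  simp only [NW, mem_compl_iff, mem_ofPred_eq, not_forall, not_not] at ht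
  obtain ⟨u, v, h1, h2, h3⟩ := ht
  refine Filter.mem_of_superset (Ioo_mem_nhds h1 h2) fun s hs hs' => ?_
  exact hs' u v hs.1 hs.2 h3

theorem Fam.isClosed (hF : ∀ i, IsClosed (F i)) {S : Set ℝ} (hS : S ∈ Fam ρ F) : IsClosed S := by
  rcases hS with (⟨p, rfl⟩ | ⟨γ, rfl⟩) | h
  · exact isClosed_image _ (hF _)
  · exact isClosed_eq (ρ γ).continuous continuous_id
  · rw [mem_singleton_iff.mp h]
    exact isClosed_NW

theorem Fam.countable [Countable Γ] : (Fam ρ F).Countable :=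
  ((countable_range _).union (countable_range _)).union (countable_singleton _)

/-- Two actions with closed sets are conjugate by `g`. -/
def Conj (g : ℝ ≃o ℝ) (ρ ρ' : Γ →* (ℝ ≃o ℝ)) (F F' : ℕ → Set ℝ) : Prop :=
  (∀ γ, ρ' γ = g * ρ γ * g⁻¹) ∧ ∀ i, F' i = g '' F i

variable {ρ' : Γ →* (ℝ ≃o ℝ)} {F' : ℕ → Set ℝ} {g : ℝ ≃o ℝ}

theorem Conj.symm (h : Conj g ρ ρ' F F') : Conj g⁻¹ ρ' ρ F' F := by
  refine ⟨fun γ => ?_, fun i => ?_⟩
  · rw [h.1 γ]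
    group
  · rw [h.2 i, ← image_mul, inv_mul_cancel]
    simp [one_app]

theorem Conj.app (h : Conj g ρ ρ' F F') (γ : Γ) (x : ℝ) : ρ' γ (g x) = g (ρ γ x) := by
  rw [h.1 γ, mul_app, mul_app, inv_app_self]

theorem Conj.WI_map (h : Conj g ρ ρ' F F') {u v : ℝ} (hW : WI ρ u v) : WI ρ' (g u) (g v) := by
  intro γ
  rcases hW γ with h1 | h1 | h1
  · left
    rw [h.app]
    exact g.le_iff_le.mpr h1
  · right; left
    rw [h.app]
    exact g.le_iff_le.mpr h1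
  · right; right
    intro z hz hz'
    have h2 := h1 (g⁻¹ z) (lt_inv_app.mpr hz) (inv_app_lt.mpr hz')
    have h3 := h.app γ (g⁻¹ z)
    rw [app_inv_self, h2, app_inv_self] at h3
    exact h3

theorem Conj.NW_mem (h : Conj g ρ ρ' F F') {p : ℝ} (hp : p ∈ NW ρ) : g p ∈ NW ρ' := by
  intro u v hu hv hW
  refine hp (g⁻¹ u) (g⁻¹ v) (inv_app_lt.mpr hu) (lt_inv_app.mpr hv) ?_
  exact h.symm.WI_map hW

theorem Conj.fam_mem (h : Conj g ρ ρ' F F') {S : Set ℝ} (hS : S ∈ Fam ρ F) :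
    g '' S ∈ Fam ρ' F' := by
  rcases hS with (⟨⟨γ, i⟩, rfl⟩ | ⟨γ, rfl⟩) | hS
  · have : g '' (ρ γ '' F i) = ρ' γ '' F' i := by
      rw [h.2 i, ← image_mul, ← image_mul, h.1 γ]
      congr 1
      ext x
      simp [mul_app]
    show g '' (ρ γ '' F i) ∈ _
    rw [this]
    exact Fam.image_mem γ i
  · have : g '' {t | ρ γ t = t} = {t | ρ' γ t = t} := by
      refine image_eq_of (fun p hp => ?_) fun p hp => ?_
      · show ρ' γ (g p) = g p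
        rw [h.app, show ρ γ p = p from hp]
      · show ρ γ (g⁻¹ p) = g⁻¹ p
        rw [h.symm.app, show ρ' γ p = p from hp]
    show g '' {t | ρ γ t = t} ∈ _
    rw [this]
    exact Fam.fix_mem γ
  · rw [mem_singleton_iff.mp hS]
    have : g '' NW ρ = NW ρ' :=
      image_eq_of (fun p hp => h.NW_mem hp) fun p hp => h.symm.NW_mem hp
    rw [this]
    exact Fam.nw_mem

theorem Conj.comp (h : Conj g ρ ρ' F F') : Comp g (Fam ρ F) (Fam ρ' F') :=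
  ⟨fun _ hS => h.fam_mem hS, fun _ hS => h.symm.fam_mem hS⟩

theorem self_WI (δ : Γ) {u v : ℝ} (hW : WI ρ u v) : WI ρ (ρ δ u) (ρ δ v) := by
  intro γ
  have key : ∀ x, ρ (δ⁻¹ * γ * δ) x = (ρ δ)⁻¹ (ρ γ (ρ δ x)) := fun x => by
    rw [map_mul, map_mul, map_inv, mul_app, mul_app]
  rcases hW (δ⁻¹ * γ * δ) with h1 | h1 | h1
  · left
    rw [key, le_inv_app] at h1
    exact h1
  · right; left
    rw [key, inv_app_le] at h1
    exact h1
  · right; right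
    intro z hz hz'
    have h2 := h1 ((ρ δ)⁻¹ z) (lt_inv_app.mpr hz) (inv_app_lt.mpr hz')
    rw [key, app_inv_self] at h2
    exact (ρ δ)⁻¹.injective h2

theorem self_NW (δ : Γ) {p : ℝ} (hp : p ∈ NW ρ) : ρ δ p ∈ NW ρ := by
  intro u v hu hv hW
  have := self_WI δ⁻¹ hW
  rw [map_inv] at this
  exact hp _ _ (inv_app_lt.mpr hu) (lt_inv_app.mpr hv) this

theorem inv_act (δ : Γ) (x : ℝ) : ρ δ⁻¹ (ρ δ x) = x := by
  rw [map_inv, inv_app_self]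

theorem act_inv (δ : Γ) (x : ℝ) : ρ δ (ρ δ⁻¹ x) = x := by
  rw [map_inv, app_inv_self]

theorem act_mul (δ ε : Γ) (x : ℝ) : ρ (δ * ε) x = ρ δ (ρ ε x) := by
  rw [map_mul, mul_app]

theorem self_fam (δ : Γ) {S : Set ℝ} (hS : S ∈ Fam ρ F) : ρ δ '' S ∈ Fam ρ F := by
  rcases hS with (⟨⟨γ, i⟩, rfl⟩ | ⟨γ, rfl⟩) | hS
  · show ρ δ '' (ρ γ '' F i) ∈ _
    rw [← image_mul, ← map_mul]
    exact Fam.image_mem _ i
  · have : ρ δ '' {t | ρ γ t = t} = {t | ρ (δ * γ * δ⁻¹) t = t} := by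
      refine image_eq_of (fun p hp => ?_) fun p hp => ?_
      · show ρ (δ * γ * δ⁻¹) (ρ δ p) = ρ δ p
        rw [act_mul, act_mul, inv_act, show ρ γ p = p from hp]
      · have h1 : ρ (δ * γ * δ⁻¹) p = p := hp
        rw [act_mul, act_mul, map_inv] at h1
        show ρ γ ((ρ δ)⁻¹ p) = (ρ δ)⁻¹ p
        apply (ρ δ).injective
        rw [h1, app_inv_self]
    show ρ δ '' {t | ρ γ t = t} ∈ _
    rw [this]
    exact Fam.fix_mem _
  · rw [mem_singleton_iff.mp hS]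
    have : ρ δ '' NW ρ = NW ρ :=
      image_eq_of (fun p hp => self_NW δ hp) fun p hp => by
        rw [← map_inv]
        exact self_NW δ⁻¹ hp
    rw [this]
    exact Fam.nw_mem

theorem self_comp (δ : Γ) : Comp (ρ δ) (Fam ρ F) (Fam ρ F) :=
  ⟨fun _ hS => self_fam δ hS, fun _ hS => by rw [← map_inv]; exact self_fam δ⁻¹ hS⟩

/-- The closed set of marked points of an action. -/
abbrev AR (ρ : Γ →* (ℝ ≃o ℝ)) (F : ℕ → Set ℝ) : Set ℝ := AA (Fam ρ F)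

/-- Being in the same gap. -/
abbrev GG (ρ : Γ →* (ℝ ≃o ℝ)) (F : ℕ → Set ℝ) (p q : ℝ) : Prop := SG (AR ρ F) p q

theorem GG.act {p q : ℝ} (h : GG ρ F p q) (γ : Γ) : GG ρ F (ρ γ p) (ρ γ q) :=
  (self_comp γ).SG_map h

theorem GG.of_act {p q : ℝ} {γ : Γ} (h : GG ρ F (ρ γ p) (ρ γ q)) : GG ρ F p q :=
  (self_comp γ).SG_iff.mp h

theorem fam_const (hF : ∀ i, IsClosed (F i)) {S : Set ℝ} (hS : S ∈ Fam ρ F) {p q : ℝ}
    (h : GG ρ F p q) (hp : p ∈ S) : q ∈ S := by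
  refine const (Fam.isClosed hF hS) (fun t ht => ?_) h hp
  have h1 : t ∈ EE (Fam ρ F) := ⟨S, hS, ht⟩
  exact subset_closure h1

theorem fix_const (hF : ∀ i, IsClosed (F i)) {γ : Γ} {p q : ℝ} (h : GG ρ F p q)
    (hp : ρ γ p = p) : ρ γ q = q :=
  fam_const hF (Fam.fix_mem γ) h hp

theorem nw_const (hF : ∀ i, IsClosed (F i)) {p q : ℝ} (h : GG ρ F p q) (hp : p ∈ NW ρ) :
    q ∈ NW ρ := fam_const hF Fam.nw_mem h hp

/-- An element that moves one point of a gap to the right moves all points of the gap to the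
right. -/
theorem sign_const (hF : ∀ i, IsClosed (F i)) {γ : Γ} {p q : ℝ} (h : GG ρ F p q)
    (hp : p < ρ γ p) : q < ρ γ q := by
  by_contra hcon
  have hcon' : ρ γ q - q ≤ 0 := by linarith [not_lt.mp hcon]
  have hp' : 0 ≤ ρ γ p - p := by linarith
  have hc : ContinuousOn (fun t : ℝ => ρ γ t - t) (uIcc p q) :=
    ((ρ γ).continuous.sub continuous_id).continuousOn
  have h0 : (0 : ℝ) ∈ uIcc (ρ γ p - p) (ρ γ q - q) := by
    rw [uIcc_of_ge (hcon'.trans hp')]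
    exact ⟨hcon', hp'⟩
  obtain ⟨t, ht, ht0⟩ := intermediate_value_uIcc hc h0
  have h1 : ρ γ t = t := by linarith [show ρ γ t - t = 0 from ht0]
  have h2 := fix_const hF (h.mem ht).symm h1
  linarith

theorem sign_const' (hF : ∀ i, IsClosed (F i)) {γ : Γ} {p q : ℝ} (h : GG ρ F p q)
    (hp : ρ γ p < p) : ρ γ q < q := by
  have h1 : p < ρ γ⁻¹ p := by
    rw [map_inv]
    exact lt_inv_app.mpr hp
  have h2 := sign_const hF h h1
  rw [map_inv] at h2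
  exact lt_inv_app.mp h2

theorem stab_const {γ : Γ} {p q : ℝ} (h : GG ρ F p q) (hp : GG ρ F p (ρ γ p)) :
    GG ρ F q (ρ γ q) := h.symm.trans (hp.trans (h.act γ))

theorem stab_inv {γ : Γ} {p : ℝ} (hp : GG ρ F p (ρ γ p)) : GG ρ F p (ρ γ⁻¹ p) := by
  have h := hp.act γ⁻¹
  rw [inv_act] at h
  exact h.symm

/-- The orbit of a point of a gap under an element that moves the gap to the right and preserves
it. -/
theorem gap_esc (hF : ∀ i, IsClosed (F i)) {γ : Γ} {p q : ℝ} (h : GG ρ F p q)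
    (hs : GG ρ F p (ρ γ p)) (hp : p < ρ γ p) :
    ∃ n : ℤ, ρ (γ ^ n) p ≤ q ∧ q < ρ (γ ^ (n + 1)) p := by
  obtain ⟨n, h1, h2⟩ := esc (f := ρ γ) (a := p) (p := q) (J := {t | GG ρ F p t})
    (ordConnected_gap p)
    (fun t ht => SG.trans ht (stab_const ht hs))
    (fun t ht => by
      rw [← map_inv]
      exact SG.trans ht (stab_const ht (stab_inv hs)))
    (fun t ht => sign_const hF ht hp) (SG.refl h.left) h
  refine ⟨n, ?_, ?_⟩
  · rw [map_zpow]; exact h1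
  · rw [map_zpow]; exact h2

/-- Inside a gap of the nonwandering set every orbit is dense. -/
theorem minim (hF : ∀ i, IsClosed (F i)) {p a b : ℝ} (hp : p ∈ NW ρ) (hab : a < b)
    (ha : GG ρ F p a) (hb : GG ρ F p b) : ∃ γ, a < ρ γ p ∧ ρ γ p < b := by
  -- it suffices to find an element that moves `a` to the right, but less than to `b`
  suffices key : ∃ γ, a < ρ γ a ∧ ρ γ a < b by
    obtain ⟨γ, h1, h2⟩ := key
    have h3 : a < (ρ γ)⁻¹ b := lt_inv_app.mpr h2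
    obtain ⟨a', h4, h5⟩ := exists_between (lt_min h3 hab)
    have h6 : ρ γ a' < b := lt_inv_app.mp (lt_of_lt_of_le h5 (min_le_left _ _))
    have h7 : a' < b := lt_of_lt_of_le h5 (min_le_right _ _)
    have ha' : GG ρ F p a' := ha.between hb h4.le h7.le
    have hga : GG ρ F a (ρ γ a) := by
      have := ha.between hb h1.le h2.le
      exact ha.symm.trans this
    have haa' : GG ρ F a a' := ha.symm.trans ha'
    obtain ⟨n, hn1, hn2⟩ := gap_esc hF ha'.symm (stab_const haa' hga) (sign_const hF haa' h1)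
    refine ⟨(γ ^ n)⁻¹, ?_, ?_⟩
    · refine lt_of_lt_of_le h4 ?_
      rw [map_inv]
      exact le_inv_app.mpr hn1
    · refine lt_trans ?_ h6
      rw [map_inv, inv_app_lt, ← act_mul, ← zpow_add_one]
      exact hn2
  obtain ⟨m, hm1, hm2⟩ := exists_between hab
  have hm : GG ρ F p m := ha.between hb hm1.le hm2.le
  have hmN : m ∈ NW ρ := nw_const hF hm hp
  have hW := hmN a b hm1 hm2
  simp only [WI, not_forall, not_or, not_le] at hW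
  obtain ⟨γ, h1, h2, z, hz1, hz2, hz3⟩ := hW
  have hz : GG ρ F z a := (ha.between hb hz1.le hz2.le).symm.trans ha
  rcases lt_or_gt_of_ne hz3 with h | h
  · refine ⟨γ⁻¹, ?_, ?_⟩
    · rw [map_inv]
      exact lt_inv_app.mpr (sign_const' hF hz h)
    · rw [map_inv]
      exact inv_app_lt.mpr h2
  · exact ⟨γ, sign_const hF hz h, h1⟩

/-- In a gap without nonwandering points, the stabiliser of the gap acts as a cyclic group. -/
theorem gen (hF : ∀ i, IsClosed (F i)) {r : ℝ} (hr : r ∉ NW ρ) {κ : Γ} (hκ : GG ρ F r (ρ κ r))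
    (hκ' : ρ κ r ≠ r) :
    ∃ t : Γ, GG ρ F r (ρ t r) ∧ r < ρ t r ∧
      ∀ κ, GG ρ F r (ρ κ r) → ∃ n : ℤ, ρ κ r = ρ (t ^ n) r := by
  set O : Set ℝ := {x | ∃ κ, GG ρ F r (ρ κ r) ∧ x = ρ κ r ∧ r < x} with hO
  have hne : O.Nonempty := by
    rcases lt_or_gt_of_ne hκ' with h | h
    · refine ⟨ρ κ⁻¹ r, κ⁻¹, stab_inv hκ, rfl, ?_⟩
      rw [map_inv]
      exact lt_inv_app.mpr h
    · exact ⟨ρ κ r, κ, hκ, rfl, h⟩
  have hbd : BddBelow O := ⟨r, fun x hx => by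
    obtain ⟨_, _, _, h⟩ := hx
    exact h.le⟩
  set s := sInf O with hs
  have hrs : r < s := by
    have h1 : ¬ ∀ u v, u < r → r < v → ¬ WI ρ u v := hr
    push Not at h1
    obtain ⟨u, v, hu, hv, hW⟩ := h1
    refine lt_of_lt_of_le hv (le_csInf hne fun x hx => ?_)
    obtain ⟨δ, _, rfl, hδ⟩ := hx
    rcases hW δ with h | h | h
    · exact h.trans ((ρ δ).le_iff_le.mpr hu.le)
    · exact absurd (((ρ δ).lt_iff_lt.mpr hv).trans_le h) (not_lt.mpr (hu.trans hδ).le)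
    · exact absurd (h r hu hv) hδ.ne'
  have hGs : GG ρ F r s := by
    obtain ⟨x, hx⟩ := hne
    have h1 : s ≤ x := csInf_le hbd hx
    obtain ⟨δ, hδ, rfl, hδ'⟩ := hx
    exact hδ.mem (by rw [uIcc_of_le hδ'.le]; exact ⟨hrs.le, h1⟩)
  have hsO : s ∈ O := by
    by_contra hsO
    have h1 : ¬ ∀ u v, u < s → s < v → ¬ WI ρ u v := fun h => hr (nw_const hF hGs.symm h)
    push Not at h1
    obtain ⟨u, v, hu, hv, hW⟩ := h1
    obtain ⟨x1, hx1, h1⟩ := exists_lt_of_csInf_lt hne hv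
    have hs1 : s < x1 := lt_of_le_of_ne (csInf_le hbd hx1) (fun h => hsO (h ▸ hx1))
    obtain ⟨x2, hx2, h2⟩ := exists_lt_of_csInf_lt hne hs1
    have hs2 : s < x2 := lt_of_le_of_ne (csInf_le hbd hx2) (fun h => hsO (h ▸ hx2))
    obtain ⟨κ₁, _, rfl, _⟩ := hx1
    obtain ⟨κ₂, _, rfl, _⟩ := hx2
    have hδ : ρ (κ₁ * κ₂⁻¹) (ρ κ₂ r) = ρ κ₁ r := by
      rw [act_mul, inv_act]
    rcases hW (κ₁ * κ₂⁻¹) with h | h | h
    · have h3 : ρ (κ₁ * κ₂⁻¹) u < ρ κ₁ r := by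
        rw [← hδ]
        exact (ρ (κ₁ * κ₂⁻¹)).lt_iff_lt.mpr (hu.trans hs2)
      linarith
    · have h3 : ρ κ₁ r < ρ (κ₁ * κ₂⁻¹) v := by
        rw [← hδ]
        exact (ρ (κ₁ * κ₂⁻¹)).lt_iff_lt.mpr (h2.trans h1)
      linarith
    · have h3 := h (ρ κ₂ r) (hu.trans hs2) (h2.trans h1)
      rw [hδ] at h3
      linarith
  obtain ⟨t, ht1, ht2, -⟩ := hsO
  refine ⟨t, ht1, by rw [← ht2]; exact hrs, fun κ hκ => ?_⟩
  obtain ⟨n, hn1, hn2⟩ := gap_esc hF hκ ht1 (by rw [← ht2]; exact hrs)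
  refine ⟨n, ?_⟩
  have h1 : r ≤ ρ ((t ^ n)⁻¹ * κ) r := by
    rw [act_mul, map_inv]
    exact le_inv_app.mpr hn1
  have h2 : ρ ((t ^ n)⁻¹ * κ) r < s := by
    rw [act_mul, map_inv, inv_app_lt, ht2, ← act_mul, ← zpow_add_one]
    exact hn2
  have h3 : ρ ((t ^ n)⁻¹ * κ) r = r := by
    by_contra hne'
    have h4 : r < ρ ((t ^ n)⁻¹ * κ) r := lt_of_le_of_ne h1 (Ne.symm hne')
    have h5 : ρ ((t ^ n)⁻¹ * κ) r ∈ O := by
      refine ⟨_, ?_, rfl, h4⟩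
      exact hGs.mem (by rw [uIcc_of_le hrs.le]; exact ⟨h1, h2.le⟩)
    exact absurd (csInf_le hbd h5) (not_le.mpr h2)
  have h4 := congrArg (ρ (t ^ n)) h3
  rw [← act_mul, mul_inv_cancel_left] at h4
  exact h4

end Pool.Agent.H642.TV
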