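import Pool.Agent.H642.TV.Code

set_option autoImplicit false

/-!
Measurability of the set of good structures, and the Borel space of countable sequences of
automorphisms of the line and of closed sets.
-/

open Set

namespace Pool.Agent.H642.TV

variable {Γ : Type} [Group Γ]

omit [Group Γ] in
theorem m_act (γ : Γ) (p : ℚ) (R : ℚ → Prop) : Measurable fun s : Str Γ => R (act s γ p) := by
  have h1 : Measurable fun s : Str Γ => s.2.1 γ (en p) := by fun_prop
  have h2 : Measurable fun n : ℕ => R (en.symm n) := Measurable.of_discrete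
  exact h2.comp h1

omit [Group Γ] in
theorem m_QQ (i : ℕ) (p : ℚ) : Measurable fun s : Str Γ => QQ s i p := by
  have h1 : Measurable fun s : Str Γ => s.2.2 i (en p) := by fun_prop
  have h2 : Measurable fun b : Bool => (b = true : Prop) := Measurable.of_discrete
  exact h2.comp h1

omit [Group Γ] in
theorem m_evC {P : Str Γ → ℚ → Prop} (hP : ∀ r, Measurable fun s => P s r) (p q : ℚ) :
    Measurable fun s => evC (P s) p q :=
  .exists fun _ => .and measurable_const (.exists fun _ => .and measurable_const
    (.forall fun _ => .imp measurable_const (.imp measurable_const (.not (hP _)))))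

omit [Group Γ] in
theorem m_endRat {M : Str Γ → ℚ → ℚ → Prop} (hM : ∀ p q, Measurable fun s => M s p q) :
    Measurable fun s => endRat (M s) :=
  .and
    (.forall fun _ => .forall fun _ => .imp measurable_const (.imp (hM _ _) (.imp (.not (hM _ _))
      (.exists fun _ => .and measurable_const (.and measurable_const (.and (.not (hM _ _))
        (.forall fun _ => .imp measurable_const (.imp measurable_const (hM _ _)))))))))
    (.forall fun _ => .forall fun _ => .imp measurable_const (.imp (hM _ _) (.imp (.not (hM _ _))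
      (.exists fun _ => .and measurable_const (.and measurable_const (.and (.not (hM _ _))
        (.forall fun _ => .imp measurable_const (.imp measurable_const (hM _ _)))))))))

omit [Group Γ] in
theorem m_evL {M : Str Γ → ℚ → ℚ → Prop} (hM : ∀ p q, Measurable fun s => M s p q) (e : ℚ) :
    Measurable fun s => evL (M s) e :=
  .and (.not (hM _ _)) (.exists fun _ => .and measurable_const
    (.forall fun _ => .imp measurable_const (.imp measurable_const (hM _ _))))

omit [Group Γ] in
theorem m_evR {M : Str Γ → ℚ → ℚ → Prop} (hM : ∀ p q, Measurable fun s => M s p q) (e : ℚ) :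
    Measurable fun s => evR (M s) e :=
  .and (.not (hM _ _)) (.exists fun _ => .and measurable_const
    (.forall fun _ => .imp measurable_const (.imp measurable_const (hM _ _))))

theorem m_evF (γ : Γ) (i : ℕ) (p q : ℚ) : Measurable fun s : Str Γ => evF s γ i p q :=
  m_evC (fun r => .exists fun r' => .and (m_act γ⁻¹ r fun x => x = r') (m_QQ i r')) p q

theorem m_evX (γ : Γ) (p q : ℚ) : Measurable fun s : Str Γ => evX s γ p q :=
  .exists fun n => m_act (γ ^ n) p fun x => q < x

variable [Countable Γ]

omit [Group Γ] in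
theorem m_wi (u v : ℚ) : Measurable fun s : Str Γ => wi s u v :=
  .forall fun γ => .or (m_act γ u fun x => v ≤ x) (.or (m_act γ v fun x => x ≤ u)
    (.forall fun z => .imp measurable_const (.imp measurable_const (m_act γ z fun x => x = z))))

omit [Group Γ] in
theorem m_evN (p q : ℚ) : Measurable fun s : Str Γ => evN s p q :=
  .exists fun _ => .forall fun _ => .imp measurable_const (.imp measurable_const (m_wi _ _))

theorem m_evE (e : ℚ) : Measurable fun s : Str Γ => evE s e :=
  .or (.exists fun γ => .exists fun i => .or (m_evL (m_evF γ i) e) (m_evR (m_evF γ i) e))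
    (.or (.exists fun γ => .or (m_evL (m_evX γ) e) (m_evR (m_evX γ) e))
      (.or (m_evL m_evN e) (m_evR m_evN e)))

theorem m_evA (p q : ℚ) : Measurable fun s : Str Γ => evA s p q := m_evC m_evE p q

omit [Countable Γ] in
theorem valid_iff (s : Str Γ) : Valid s ↔ (∀ i m n, s.1 i m n = false) ∧ (∀ p, act s 1 p = p) ∧
    (∀ γ δ p, ∃ r r' : ℚ, act s δ p = r ∧ act s γ r = r' ∧ act s (γ * δ) p = r') ∧
    ∀ γ p q, p < q → ∃ r r' : ℚ, act s γ p = r ∧ act s γ q = r' ∧ r < r' := by
  constructor
  · rintro ⟨h1, h2, h3, h4⟩
    exact ⟨h1, h2, fun γ δ p => ⟨_, _, rfl, rfl, h3 γ δ p⟩, fun γ p q hpq =>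
      ⟨_, _, rfl, rfl, h4 γ p q hpq⟩⟩
  · rintro ⟨h1, h2, h3, h4⟩
    refine ⟨h1, h2, fun γ δ p => ?_, fun γ p q hpq => ?_⟩
    · obtain ⟨r, r', rfl, rfl, h⟩ := h3 γ δ p
      exact h
    · obtain ⟨r, r', rfl, rfl, h⟩ := h4 γ p q hpq
      exact h

theorem m_valid : Measurable fun s : Str Γ => Valid s := by
  simp only [valid_iff]
  refine .and (.forall fun i => .forall fun m => .forall fun n => ?_) (.and
    (.forall fun p => m_act 1 p fun x => x = p) (.and (.forall fun γ => .forall fun δ =>
      .forall fun p => .exists fun r => .exists fun r' => .and (m_act δ p fun x => x = r)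
        (.and (m_act γ r fun x => x = r') (m_act (γ * δ) p fun x => x = r')))
      (.forall fun γ => .forall fun p => .forall fun q => .imp measurable_const
        (.exists fun r => .exists fun r' => .and (m_act γ p fun x => x = r)
          (.and (m_act γ q fun x => x = r') measurable_const)))))
  have h1 : Measurable fun s : Str Γ => s.1 i m n := by fun_prop
  have h2 : Measurable fun b : Bool => (b = false : Prop) := Measurable.of_discrete
  exact h2.comp h1

omit [Countable Γ] in
theorem goodS_def (s : Str Γ) : GoodS s ↔ Valid s ∧ (∀ i p, QQ s i p ↔ ¬ evF s 1 i p p) ∧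
    (∀ (γ : Γ) (i : ℕ), endRat (evF s γ i)) ∧ (∀ γ : Γ, endRat (evX s γ)) ∧ endRat (evN s) ∧
    endRat (evA s) ∧ (∀ p : ℚ, ¬ evA s p p → evE s p ∨ evL (evA s) p ∨ evR (evA s) p) ∧
    ∀ p q : ℚ, p ≤ q → ¬ evN s p p → evA s p q → ∃ γ, act s γ p = q :=
  ⟨fun h => ⟨h.1, h.2, h.3, h.4, h.5, h.6, h.7, h.8⟩,
    fun ⟨h1, h2, h3, h4, h5, h6, h7, h8⟩ => ⟨h1, h2, h3, h4, h5, h6, h7, h8⟩⟩

theorem m_goodS : Measurable fun s : Str Γ => GoodS s := by
  simp only [goodS_def]
  exact .and m_valid (.and (.forall fun i => .forall fun p => .iff (m_QQ i p)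
    (.not (m_evF 1 i p p))) (.and (.forall fun γ => .forall fun i => m_endRat (m_evF γ i))
    (.and (.forall fun γ => m_endRat (m_evX γ)) (.and (m_endRat m_evN) (.and (m_endRat m_evA)
    (.and (.forall fun p => .imp (.not (m_evA p p)) (.or (m_evE p) (.or (m_evL m_evA p)
      (m_evR m_evA p))))
    (.forall fun p => .forall fun q => .imp measurable_const (.imp (.not (m_evN p p))
      (.imp (m_evA p q) (.exists fun γ => m_act γ p fun x => x = q))))))))))

end Pool.Agent.H642.TV
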