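import Pool.Agent.H642.TV.Gap

set_option autoImplicit false

/-!
Good countable dense sets for an action on the line with closed sets, and their uniqueness.
-/

open Set

namespace Pool.Agent.H642.TV

variable {Γ : Type} [Group Γ] {ρ : Γ →* (ℝ ≃o ℝ)} {F : ℕ → Set ℝ}
  {ρ' : Γ →* (ℝ ≃o ℝ)} {F' : ℕ → Set ℝ} {g : ℝ ≃o ℝ} {D D' : Set ℝ}

/-- Good sets. -/
structure Good (ρ : Γ →* (ℝ ≃o ℝ)) (F : ℕ → Set ℝ) (D : Set ℝ) : Prop where
  sub : ∀ p ∈ DZ (Fam ρ F), p ∈ D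
  inter : ∀ p ∈ D, p ∈ AR ρ F → p ∈ DZ (Fam ρ F)
  inv : ∀ γ, ∀ p ∈ D, ρ γ p ∈ D
  tr : ∀ p ∈ D, ∀ q ∈ D, p ∈ NW ρ → GG ρ F p q → ∃ γ, ρ γ p = q

theorem Good.conj (hD : Good ρ F D) (h : Conj g ρ ρ' F F') : Good ρ' F' (g '' D) := by
  refine ⟨fun p hp => ?_, ?_, fun γ => ?_, ?_⟩
  · rw [mem_image_iso]
    exact hD.sub _ (h.comp.symm.DZ_mem hp)
  · rintro _ ⟨p, hp, rfl⟩ hA
    exact h.comp.DZ_mem (hD.inter p hp (h.comp.AA_mem.mp hA))
  · rintro _ ⟨p, hp, rfl⟩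
    rw [h.app]
    exact mem_image_of_mem g (hD.inv γ p hp)
  · rintro _ ⟨p, hp, rfl⟩ _ ⟨q, hq, rfl⟩ hN hG
    have hN' := h.symm.NW_mem hN
    rw [inv_app_self] at hN'
    obtain ⟨γ, hγ⟩ := hD.tr p hp q hq hN' (h.comp.SG_iff.mp hG)
    exact ⟨γ, by rw [h.app, hγ]⟩

/-! ### Representatives of orbits of gaps -/

/-- The orbit relation on gaps. -/
def RR (ρ : Γ →* (ℝ ≃o ℝ)) (F : ℕ → Set ℝ) (t t' : ℝ) : Prop :=
  t = t' ∨ ∃ γ, GG ρ F (ρ γ t) t'

theorem RR.equivalence : Equivalence (RR ρ F) where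
  refl _ := Or.inl rfl
  symm {x y} h := by
    rcases h with h | ⟨γ, h⟩
    · exact Or.inl h.symm
    · right
      refine ⟨γ⁻¹, ?_⟩
      have := h.act γ⁻¹
      rw [inv_act] at this
      exact this.symm
  trans {x y z} h h' := by
    rcases h with rfl | ⟨γ, h⟩
    · exact h'
    · rcases h' with rfl | ⟨δ, h'⟩
      · exact Or.inr ⟨γ, h⟩
      · right
        refine ⟨δ * γ, ?_⟩
        rw [act_mul]
        exact (h.act δ).trans h'

/-- The orbit relation on gaps, as a setoid. -/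
def gapSetoid (ρ : Γ →* (ℝ ≃o ℝ)) (F : ℕ → Set ℝ) : Setoid ℝ where
  r := RR ρ F
  iseqv := RR.equivalence

/-- A chosen representative. -/
noncomputable def rep (ρ : Γ →* (ℝ ≃o ℝ)) (F : ℕ → Set ℝ) (t : ℝ) : ℝ :=
  (Quotient.mk (gapSetoid ρ F) t).out

theorem rep_rel (t : ℝ) : RR ρ F (rep ρ F t) t := Quotient.mk_out (s := gapSetoid ρ F) t

theorem rep_eq {t t' : ℝ} (h : RR ρ F t t') : rep ρ F t = rep ρ F t' := by
  have : Quotient.mk (gapSetoid ρ F) t = Quotient.mk (gapSetoid ρ F) t' := Quotient.sound h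
  unfold rep
  rw [this]

theorem rep_spec {t : ℝ} (ht : t ∉ AR ρ F) : ∃ γ, GG ρ F (ρ γ t) (rep ρ F t) := by
  rcases RR.equivalence.symm (rep_rel (ρ := ρ) (F := F) t) with h | h
  · refine ⟨1, ?_⟩
    rw [map_one, one_app, ← h]
    exact SG.refl ht
  · exact h

/-! ### Equivariant isomorphisms in one gap -/

/-- `τ` is an isomorphism from the points of `D` to the points of `D'` in the gap of `r`. -/
structure Tau (ρ : Γ →* (ℝ ≃o ℝ)) (F : ℕ → Set ℝ) (D D' : Set ℝ) (r : ℝ) (τ : ℝ → ℝ) : Prop where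
  maps : ∀ d ∈ D, GG ρ F r d → τ d ∈ D' ∧ GG ρ F r (τ d)
  mono : ∀ d ∈ D, ∀ e ∈ D, GG ρ F r d → GG ρ F r e → d < e → τ d < τ e
  surj : ∀ e ∈ D', GG ρ F r e → ∃ d ∈ D, GG ρ F r d ∧ τ d = e
  equi : ∀ γ, ∀ d ∈ D, GG ρ F r d → GG ρ F r (ρ γ d) → τ (ρ γ d) = ρ γ (τ d)

theorem tau_m (hF : ∀ i, IsClosed (F i)) (hD : Good ρ F D) (hD' : Good ρ F D') (dD : Dense D)
    (dD' : Dense D') {r : ℝ} (hr : r ∉ AR ρ F) (hN : r ∈ NW ρ) : ∃ τ, Tau ρ F D D' r τ := by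
  obtain ⟨p, hpD, hp⟩ := dD.exists_mem_open (isOpen_gap (isClosed_AA _) r) ⟨r, SG.refl hr⟩
  obtain ⟨q, hqD, hq⟩ := dD'.exists_mem_open (isOpen_gap (isClosed_AA _) r) ⟨r, SG.refl hr⟩
  have hp : GG ρ F r p := hp
  have hq : GG ρ F r q := hq
  have hpq : GG ρ F p q := SG.trans (SG.symm hp) hq
  classical
  set τ : ℝ → ℝ := fun d => if h : ∃ γ, ρ γ p = d then ρ h.choose q else 0 with hτ
  have key : ∀ γ, τ (ρ γ p) = ρ γ q := by
    intro γ
    have h : ∃ δ, ρ δ p = ρ γ p := ⟨γ, rfl⟩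
    have h1 : τ (ρ γ p) = ρ h.choose q := by
      simp only [hτ]
      rw [dif_pos h]
    rw [h1]
    have h2 : ρ (γ⁻¹ * h.choose) p = p := by
      rw [act_mul, h.choose_spec, inv_act]
    have h3 := fix_const hF hpq h2
    rw [act_mul] at h3
    have h4 := congrArg (ρ γ) h3
    rwa [act_inv] at h4
  have hex : ∀ d ∈ D, GG ρ F r d → ∃ γ, ρ γ p = d := fun d hd hrd =>
    hD.tr p hpD d hd (nw_const hF hp hN) (SG.trans (SG.symm hp) hrd)
  refine ⟨τ, ?_, ?_, ?_, ?_⟩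
  · intro d hd hrd
    obtain ⟨γ, rfl⟩ := hex d hd hrd
    rw [key]
    exact ⟨hD'.inv γ q hqD, hrd.trans (hpq.act γ)⟩
  · intro d hd e he hrd hre hde
    obtain ⟨γ, rfl⟩ := hex d hd hrd
    obtain ⟨δ, rfl⟩ := hex e he hre
    rw [key, key]
    have h1 : p < ρ (γ⁻¹ * δ) p := by
      rw [act_mul, map_inv]
      exact lt_inv_app.mpr hde
    have h2 := sign_const hF hpq h1
    rw [act_mul, map_inv] at h2
    exact lt_inv_app.mp h2
  · intro e he hre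
    obtain ⟨γ, rfl⟩ := hD'.tr q hqD e he (nw_const hF hq hN) (SG.trans (SG.symm hq) hre)
    exact ⟨ρ γ p, hD.inv γ p hpD, hre.trans (hpq.act γ).symm, key γ⟩
  · intro γ d hd hrd _
    obtain ⟨δ, rfl⟩ := hex d hd hrd
    rw [← act_mul, key, key, act_mul]

theorem tau_w0 (hF : ∀ i, IsClosed (F i)) (cD : D.Countable)
    (dD : Dense D) (cD' : D'.Countable) (dD' : Dense D') {r : ℝ} (hr : r ∉ AR ρ F)
    (h0 : ∀ κ, GG ρ F r (ρ κ r) → ρ κ r = r) : ∃ τ, Tau ρ F D D' r τ := by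
  obtain ⟨τ, h1, h2, h3⟩ := cantor cD dD cD' dD' (isOpen_gap (isClosed_AA _) r)
    (ordConnected_gap r) ⟨r, SG.refl hr⟩ (isOpen_gap (isClosed_AA _) r)
    (ordConnected_gap r) ⟨r, SG.refl hr⟩
  refine ⟨τ, fun d hd hrd => h1 d ⟨hd, hrd⟩, fun d hd e he hrd hre hde =>
    h2 ⟨hd, hrd⟩ ⟨he, hre⟩ hde, fun e he hre => ?_, fun γ d hd hrd hrgd => ?_⟩
  · obtain ⟨d, ⟨hd1, hd2⟩, hd3⟩ := h3 ⟨he, hre⟩
    exact ⟨d, hd1, hd2, hd3⟩
  · have h4 : ρ γ r = r := h0 γ (stab_const hrd.symm (hrd.symm.trans hrgd))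
    rw [fix_const hF hrd h4, fix_const hF (h1 d ⟨hd, hrd⟩).2 h4]

theorem gap_zpow (hF : ∀ i, IsClosed (F i)) {r a : ℝ} {t : Γ} (ht : GG ρ F r (ρ t r))
    (ht' : r < ρ t r) (ha : GG ρ F r a) :
    (∀ n : ℤ, GG ρ F r (ρ (t ^ n) a)) ∧ StrictMono fun n : ℤ => ρ (t ^ n) a := by
  obtain ⟨h1, h2⟩ := zpow_strictMono (f := ρ t) (a := a) (J := {x | GG ρ F r x})
    (fun x hx => SG.trans hx (stab_const hx ht))
    (fun x hx => by
      rw [← map_inv]
      exact SG.trans hx (stab_const hx (stab_inv ht)))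
    (fun x hx => sign_const hF hx ht') ha
  constructor
  · intro n
    rw [map_zpow]
    exact h1 n
  · have : (fun n : ℤ => ρ (t ^ n) a) = fun n : ℤ => (ρ t ^ n) a := by
      funext n
      rw [map_zpow]
    rw [this]
    exact h2

theorem tau_w1 (hF : ∀ i, IsClosed (F i)) (hD : Good ρ F D) (hD' : Good ρ F D') (cD : D.Countable)
    (dD : Dense D) (cD' : D'.Countable) (dD' : Dense D') {r : ℝ} (hr : r ∉ AR ρ F)
    {t : Γ} (ht : GG ρ F r (ρ t r)) (ht' : r < ρ t r)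
    (hgen : ∀ κ, GG ρ F r (ρ κ r) → ∃ n : ℤ, ρ κ r = ρ (t ^ n) r) :
    ∃ τ, Tau ρ F D D' r τ := by
  obtain ⟨p, hpD, hp⟩ := dD.exists_mem_open (isOpen_gap (isClosed_AA _) r) ⟨r, SG.refl hr⟩
  obtain ⟨q, hqD, hq⟩ := dD'.exists_mem_open (isOpen_gap (isClosed_AA _) r) ⟨r, SG.refl hr⟩
  have hp : GG ρ F r p := hp
  have hq : GG ρ F r q := hq
  have hptp : p < ρ t p := sign_const hF hp ht'
  have hqtq : q < ρ t q := sign_const hF hq ht'
  obtain ⟨e, he1, he2, he3⟩ := cantor cD dD cD' dD' (I := Ioo p (ρ t p)) (I' := Ioo q (ρ t q))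
    isOpen_Ioo ordConnected_Ioo (nonempty_Ioo.mpr hptp) isOpen_Ioo ordConnected_Ioo
    (nonempty_Ioo.mpr hqtq)
  classical
  -- the isomorphism between the fundamental domains
  obtain ⟨τ₀, hτ1, hτ2, hτ3⟩ : ∃ τ₀ : ℝ → ℝ,
      (∀ x ∈ D, p ≤ x → x < ρ t p → τ₀ x ∈ D' ∧ q ≤ τ₀ x ∧ τ₀ x < ρ t q) ∧
      (∀ x ∈ D, ∀ y ∈ D, p ≤ x → x < y → y < ρ t p → τ₀ x < τ₀ y) ∧
      (∀ z ∈ D', q ≤ z → z < ρ t q → ∃ x ∈ D, p ≤ x ∧ x < ρ t p ∧ τ₀ x = z) := by
    refine ⟨fun x => if x = p then q else e x, ?_, ?_, ?_⟩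
    · intro x hx h1 h2
      rcases h1.eq_or_lt with h | h
      · simp only [if_pos h.symm]
        exact ⟨hqD, le_rfl, hqtq⟩
      · simp only [if_neg h.ne']
        have := he1 x ⟨hx, h, h2⟩
        exact ⟨this.1, this.2.1.le, this.2.2⟩
    · intro x hx y hy h1 h2 h3
      have hy' : p < y := lt_of_le_of_lt h1 h2
      simp only [if_neg hy'.ne']
      rcases h1.eq_or_lt with h | h
      · simp only [if_pos h.symm]
        exact (he1 y ⟨hy, hy', h3⟩).2.1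
      · simp only [if_neg h.ne']
        exact he2 ⟨hx, h, h2.trans h3⟩ ⟨hy, hy', h3⟩ h2
    · intro z hz h1 h2
      rcases h1.eq_or_lt with h | h
      · exact ⟨p, hpD, le_rfl, hptp, by simp [h]⟩
      · obtain ⟨x, ⟨hx1, hx2, hx3⟩, hx4⟩ := he3 ⟨hz, h, h2⟩
        exact ⟨x, hx1, hx2.le, hx3, by simp [hx2.ne', hx4]⟩
  obtain ⟨hpz, hpm⟩ := gap_zpow hF ht ht' hp
  obtain ⟨hqz, hqm⟩ := gap_zpow hF ht ht' hq
  set N : ℝ → ℤ → Prop := fun d n => ρ (t ^ n) p ≤ d ∧ d < ρ (t ^ (n + 1)) p with hN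
  have hNuniq : ∀ d n m, N d n → N d m → n ≤ m := by
    intro d n m hn hm
    have h1 : n < m + 1 := hpm.lt_iff_lt.mp (lt_of_le_of_lt hn.1 hm.2)
    omega
  have hNex : ∀ d, GG ρ F r d → ∃ n, N d n := fun d hd => by
    obtain ⟨n, h1, h2⟩ := gap_esc hF (hp.symm.trans hd) (stab_const hp ht) hptp
    exact ⟨n, h1, h2⟩
  set τ : ℝ → ℝ := fun d => if h : ∃ n, N d n then
    ρ (t ^ h.choose) (τ₀ ((ρ (t ^ h.choose))⁻¹ d)) else 0 with hτ
  have key : ∀ d n, N d n → τ d = ρ (t ^ n) (τ₀ ((ρ (t ^ n))⁻¹ d)) := by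
    intro d n hn
    have h : ∃ n, N d n := ⟨n, hn⟩
    have h1 : h.choose = n := le_antisymm (hNuniq _ _ _ h.choose_spec hn)
      (hNuniq _ _ _ hn h.choose_spec)
    simp only [hτ]
    rw [dif_pos h, h1]
  have hdom : ∀ d ∈ D, ∀ n, N d n → (ρ (t ^ n))⁻¹ d ∈ D ∧ p ≤ (ρ (t ^ n))⁻¹ d ∧
      (ρ (t ^ n))⁻¹ d < ρ t p := by
    intro d hd n hn
    refine ⟨?_, le_inv_app.mpr hn.1, inv_app_lt.mpr ?_⟩
    · rw [← map_inv]
      exact hD.inv _ d hd
    · rw [← act_mul, ← zpow_add_one]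
      exact hn.2
  have hbnd : ∀ d ∈ D, ∀ n, N d n → τ d ∈ D' ∧ ρ (t ^ n) q ≤ τ d ∧ τ d < ρ (t ^ (n + 1)) q := by
    intro d hd n hn
    obtain ⟨h1, h2, h3⟩ := hdom d hd n hn
    obtain ⟨h4, h5, h6⟩ := hτ1 _ h1 h2 h3
    rw [key d n hn]
    refine ⟨hD'.inv _ _ h4, (ρ (t ^ n)).le_iff_le.mpr h5, ?_⟩
    rw [zpow_add_one, act_mul]
    exact (ρ (t ^ n)).lt_iff_lt.mpr h6
  refine ⟨τ, ?_, ?_, ?_, ?_⟩
  · intro d hd hrd
    obtain ⟨n, hn⟩ := hNex d hrd
    obtain ⟨h1, h2, h3⟩ := hbnd d hd n hn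
    exact ⟨h1, SG.between (hqz n) (hqz (n + 1)) h2 h3.le⟩
  · intro d hd d' hd' hrd hrd' hdd
    obtain ⟨n, hn⟩ := hNex d hrd
    obtain ⟨m, hm⟩ := hNex d' hrd'
    have hnm : n < m + 1 := hpm.lt_iff_lt.mp (lt_of_le_of_lt hn.1 (hdd.trans hm.2))
    rcases (Int.lt_add_one_iff.mp hnm).eq_or_lt with h | h
    · subst h
      obtain ⟨h1, h2, h3⟩ := hdom d hd n hn
      obtain ⟨h4, h5, h6⟩ := hdom d' hd' n hm
      rw [key d n hn, key d' n hm]
      refine (ρ (t ^ n)).lt_iff_lt.mpr (hτ2 _ h1 _ h4 h2 ?_ h6)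
      exact ((ρ (t ^ n))⁻¹).lt_iff_lt.mpr hdd
    · have h1 := (hbnd d hd n hn).2.2
      have h2 := (hbnd d' hd' m hm).2.1
      have h3 : ρ (t ^ (n + 1)) q ≤ ρ (t ^ m) q := hqm.monotone (by omega)
      linarith
  · intro z hz hrz
    obtain ⟨n, h1, h2⟩ := gap_esc hF (hq.symm.trans hrz) (stab_const hq ht) hqtq
    have h3 : q ≤ (ρ (t ^ n))⁻¹ z := le_inv_app.mpr h1
    have h4 : (ρ (t ^ n))⁻¹ z < ρ t q := by
      rw [inv_app_lt, ← act_mul, ← zpow_add_one]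
      exact h2
    have h5 : (ρ (t ^ n))⁻¹ z ∈ D' := by
      rw [← map_inv]
      exact hD'.inv _ z hz
    obtain ⟨x, hx1, hx2, hx3, hx4⟩ := hτ3 _ h5 h3 h4
    have hn : N (ρ (t ^ n) x) n := by
      refine ⟨(ρ (t ^ n)).le_iff_le.mpr hx2, ?_⟩
      rw [zpow_add_one, act_mul]
      exact (ρ (t ^ n)).lt_iff_lt.mpr hx3
    refine ⟨ρ (t ^ n) x, hD.inv _ x hx1, SG.between (hpz n) (hpz (n + 1)) hn.1 hn.2.le, ?_⟩
    rw [key _ n hn, inv_app_self, hx4, app_inv_self]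
  · intro γ d hd hrd hrgd
    have hst : GG ρ F r (ρ γ r) := stab_const hrd.symm (hrd.symm.trans hrgd)
    obtain ⟨m, hm⟩ := hgen γ hst
    have hfix : ∀ x, GG ρ F r x → ρ γ x = ρ (t ^ m) x := by
      intro x hx
      have h1 : ρ ((t ^ m)⁻¹ * γ) r = r := by
        rw [act_mul, hm, inv_act]
      have h2 := fix_const hF hx h1
      rw [act_mul] at h2
      have h3 := congrArg (ρ (t ^ m)) h2
      rwa [act_inv] at h3
    obtain ⟨n, hn⟩ := hNex d hrd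
    have h1 := hbnd d hd n hn
    have hG : GG ρ F r (τ d) := SG.between (hqz n) (hqz (n + 1)) h1.2.1 h1.2.2.le
    rw [hfix d hrd, hfix _ hG]
    have hn' : N (ρ (t ^ m) d) (m + n) := by
      refine ⟨?_, ?_⟩
      · rw [zpow_add, act_mul]
        exact (ρ (t ^ m)).le_iff_le.mpr hn.1
      · rw [add_assoc, zpow_add, act_mul]
        exact (ρ (t ^ m)).lt_iff_lt.mpr hn.2
    rw [key _ _ hn', key _ _ hn, zpow_add, act_mul, map_mul, mul_inv_rev, mul_app, inv_app_self]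

theorem exists_tau (hF : ∀ i, IsClosed (F i)) (hD : Good ρ F D) (hD' : Good ρ F D')
    (cD : D.Countable) (dD : Dense D) (cD' : D'.Countable) (dD' : Dense D') {r : ℝ}
    (hr : r ∉ AR ρ F) : ∃ τ, Tau ρ F D D' r τ := by
  by_cases hN : r ∈ NW ρ
  · exact tau_m hF hD hD' dD dD' hr hN
  · by_cases h0 : ∀ κ, GG ρ F r (ρ κ r) → ρ κ r = r
    · exact tau_w0 hF cD dD cD' dD' hr h0
    · push Not at h0
      obtain ⟨κ, h1, h2⟩ := h0
      obtain ⟨t, h3, h4, h5⟩ := gen hF hN h1 h2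
      exact tau_w1 hF hD hD' cD dD cD' dD' hr h3 h4 h5

/-! ### Uniqueness -/

/-- A good set contains a dense subset of each of the given closed sets. -/
theorem Good.closure_eq (hF : ∀ i, IsClosed (F i)) (hD : Good ρ F D) (dD : Dense D) (i : ℕ) :
    closure (F i ∩ D) = F i := by
  refine subset_antisymm ((hF i).closure_subset_iff.mpr inter_subset_left) fun t ht => ?_
  rw [mem_closure_iff_nhds]
  intro U hU
  obtain ⟨l, u, ⟨h1, h2⟩, h3⟩ := mem_nhds_iff_exists_Ioo_subset.mp hU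
  by_cases hA : t ∈ AR ρ F
  · by_cases hsub : Ioo l u ⊆ F i
    · obtain ⟨d, hd, h4, h5⟩ := dD.exists_between (h1.trans h2)
      exact ⟨d, h3 ⟨h4, h5⟩, hsub ⟨h4, h5⟩, hd⟩
    · obtain ⟨w, hw, hw'⟩ := not_subset.mp hsub
      by_contra hcon
      have h4 : ∀ s, LEnd (F i) s ∨ REnd (F i) s → s ∈ (Ioo l u)ᶜ := by
        intro s hs hs'
        have h5 : s ∈ D := hD.sub s (Or.inl ⟨F i, Fam.base_mem i, hs⟩)
        have h6 : s ∈ F i := by
          rcases hs with h | h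
          · exact h.1
          · exact h.1
        exact hcon ⟨s, h3 hs', h6, h5⟩
      refine hw' (const (hF i) h4 (p := t) (q := w) (fun s hs hs' => ?_) ht)
      exact hs' (ordConnected_Ioo.uIcc_subset ⟨h1, h2⟩ hw hs)
  · -- `t` is in a gap, hence the gap is contained in `F i`
    have hopen : IsOpen ({s | GG ρ F t s} ∩ Ioo l u) :=
      (isOpen_gap (isClosed_AA _) t).inter isOpen_Ioo
    obtain ⟨d, hd, hd1, hd2⟩ := dD.exists_mem_open hopen ⟨t, SG.refl hA, h1, h2⟩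
    exact ⟨d, h3 hd2, fam_const hF (Fam.base_mem i) hd1 ht, hd⟩

/-- Two good countable dense sets for the same action with closed sets differ by an automorphism
of the action with closed sets. -/
theorem uniq (hF : ∀ i, IsClosed (F i)) (hD : Good ρ F D) (hD' : Good ρ F D')
    (cD : D.Countable) (dD : Dense D) (cD' : D'.Countable) (dD' : Dense D') :
    ∃ h : ℝ ≃o ℝ, (∀ γ x, h (ρ γ x) = ρ γ (h x)) ∧ (∀ i, h '' F i = F i) ∧
      (∀ d ∈ D, h d ∈ D') ∧ SurjOn h D D' := by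
  classical
  have hτ' : ∀ r : ℝ, ∃ τ, r ∉ AR ρ F → Tau ρ F D D' r τ := fun r => by
    by_cases hr : r ∈ AR ρ F
    · exact ⟨id, fun h => absurd hr h⟩
    · obtain ⟨τ, hτ⟩ := exists_tau hF hD hD' cD dD cD' dD' hr
      exact ⟨τ, fun _ => hτ⟩
  choose τ hτ using hτ'
  have hg' : ∀ t : ℝ, ∃ γ : Γ, t ∉ AR ρ F → GG ρ F (ρ γ t) (rep ρ F t) := fun t => by
    by_cases ht : t ∈ AR ρ F
    · exact ⟨1, fun h => absurd ht h⟩
    · obtain ⟨γ, hγ⟩ := rep_spec ht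
      exact ⟨γ, fun _ => hγ⟩
  choose G hG using hg'
  set σ : ℝ → ℝ := fun d => if d ∈ AR ρ F then d else
    (ρ (G d))⁻¹ (τ (rep ρ F d) (ρ (G d) d)) with hσ
  have hσA : ∀ d ∈ AR ρ F, σ d = d := fun d hd => by
    simp only [hσ]
    rw [if_pos hd]
  have hrepA : ∀ d, d ∉ AR ρ F → rep ρ F d ∉ AR ρ F := fun d hd => (hG d hd).right
  have key : ∀ d ∈ D, d ∉ AR ρ F → ∀ γ, GG ρ F (ρ γ d) (rep ρ F d) →
      σ d = (ρ γ)⁻¹ (τ (rep ρ F d) (ρ γ d)) := by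
    intro d hd hdA γ hγ
    have hT := hτ _ (hrepA d hdA)
    simp only [hσ]
    rw [if_neg hdA]
    have h1 : ρ (γ * (G d)⁻¹) (ρ (G d) d) = ρ γ d := by
      rw [act_mul, inv_act]
    have h2 := hT.equi (γ * (G d)⁻¹) (ρ (G d) d) (hD.inv _ d hd) (hG d hdA).symm
      (by rw [h1]; exact hγ.symm)
    rw [h1, act_mul, map_inv] at h2
    rw [h2, inv_app_self]
  have hmem : ∀ d ∈ D, d ∉ AR ρ F → σ d ∈ D' ∧ GG ρ F d (σ d) := by
    intro d hd hdA
    have hT := hτ _ (hrepA d hdA)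
    obtain ⟨h1, h2⟩ := hT.maps _ (hD.inv (G d) d hd) (hG d hdA).symm
    rw [key d hd hdA (G d) (hG d hdA)]
    constructor
    · rw [← map_inv]
      exact hD'.inv _ _ h1
    · apply GG.of_act (γ := G d)
      rw [app_inv_self]
      exact (hG d hdA).trans h2
  have hmono : StrictMonoOn σ D := by
    intro x hx y hy hxy
    by_cases hxA : x ∈ AR ρ F
    · rw [hσA x hxA]
      by_cases hyA : y ∈ AR ρ F
      · rwa [hσA y hyA]
      · by_contra hcon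
        have h1 := (hmem y hy hyA).2
        refine h1 x ?_ hxA
        rw [mem_uIcc]
        exact Or.inr ⟨not_lt.mp hcon, hxy.le⟩
    · have hx1 := hmem x hx hxA
      by_cases hyA : y ∈ AR ρ F
      · rw [hσA y hyA]
        by_contra hcon
        refine hx1.2 y ?_ hyA
        rw [mem_uIcc]
        exact Or.inl ⟨hxy.le, not_lt.mp hcon⟩
      · have hy1 := hmem y hy hyA
        by_cases hxyG : GG ρ F x y
        · have hrep : rep ρ F x = rep ρ F y := rep_eq (Or.inr ⟨1, by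
            rw [map_one, one_app]; exact hxyG⟩)
          have h1 : GG ρ F (ρ (G x) y) (rep ρ F y) := by
            rw [← hrep]
            exact (hxyG.act (G x)).symm.trans (hG x hxA)
          rw [key x hx hxA (G x) (hG x hxA), key y hy hyA (G x) h1, ← hrep]
          have hT := hτ _ (hrepA x hxA)
          refine ((ρ (G x))⁻¹).lt_iff_lt.mpr (hT.mono _ (hD.inv _ x hx) _ (hD.inv _ y hy)
            (hG x hxA).symm ?_ ((ρ (G x)).lt_iff_lt.mpr hxy))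
          rw [hrep]
          exact h1.symm
        · -- there is a point of `AR` between
          have : ∃ a ∈ AR ρ F, x < a ∧ a < y := by
            by_contra hcon
            push Not at hcon
            refine hxyG fun s hs hsA => ?_
            rw [uIcc_of_le hxy.le] at hs
            have h1 : x ≠ s := fun h => hxA (h ▸ hsA)
            have h2 : s ≠ y := fun h => hyA (h ▸ hsA)
            exact absurd (lt_of_le_of_ne hs.2 h2) (not_lt.mpr (hcon s hsA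
              (lt_of_le_of_ne hs.1 h1)))
          obtain ⟨a, ha, h1, h2⟩ := this
          have h3 : σ x < a := by
            by_contra hcon
            refine hx1.2 a ?_ ha
            rw [mem_uIcc]
            exact Or.inl ⟨h1.le, not_lt.mp hcon⟩
          have h4 : a < σ y := by
            by_contra hcon
            refine hy1.2 a ?_ ha
            rw [mem_uIcc]
            exact Or.inr ⟨not_lt.mp hcon, h2.le⟩
          exact h3.trans h4
  have hDA : ∀ d ∈ D, d ∈ AR ρ F → d ∈ D' := fun d hd hdA => hD'.sub d (hD.inter d hd hdA)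
  have hmaps : ∀ d ∈ D, σ d ∈ D' := by
    intro d hd
    by_cases hdA : d ∈ AR ρ F
    · rw [hσA d hdA]
      exact hDA d hd hdA
    · exact (hmem d hd hdA).1
  have hsurj : SurjOn σ D D' := by
    intro z hz
    by_cases hzA : z ∈ AR ρ F
    · exact ⟨z, hD.sub z (hD'.inter z hz hzA), hσA z hzA⟩
    · have hT := hτ _ (hrepA z hzA)
      obtain ⟨e, he1, he2, he3⟩ := hT.surj _ (hD'.inv (G z) z hz) (hG z hzA).symm
      set d := (ρ (G z))⁻¹ e with hd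
      have hd1 : ρ (G z) d = e := app_inv_self _ _
      have hdD : d ∈ D := by
        rw [hd, ← map_inv]
        exact hD.inv _ e he1
      have hzd : GG ρ F z d := by
        apply GG.of_act (γ := G z)
        rw [hd1]
        exact (hG z hzA).trans he2
      have hrep : rep ρ F z = rep ρ F d := rep_eq (Or.inr ⟨1, by
        rw [map_one, one_app]; exact hzd⟩)
      refine ⟨d, hdD, ?_⟩
      rw [key d hdD hzd.right (G z) (by rw [hd1, ← hrep]; exact he2.symm), hd1, ← hrep, he3,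
        inv_app_self]
  have hequi : ∀ γ, ∀ d ∈ D, σ (ρ γ d) = ρ γ (σ d) := by
    intro γ d hd
    by_cases hdA : d ∈ AR ρ F
    · rw [hσA d hdA, hσA _ ((self_comp γ).AA_mem.mpr hdA)]
    · have hdA' : ρ γ d ∉ AR ρ F := fun h => hdA ((self_comp γ).AA_mem.mp h)
      have hrep : rep ρ F d = rep ρ F (ρ γ d) := rep_eq (Or.inr ⟨γ, SG.refl hdA'⟩)
      have h1 : ρ (G d * γ⁻¹) (ρ γ d) = ρ (G d) d := by
        rw [act_mul, inv_act]
      rw [key (ρ γ d) (hD.inv γ d hd) hdA' (G d * γ⁻¹) (by rw [h1, ← hrep]; exact hG d hdA),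
        key d hd hdA (G d) (hG d hdA), h1, ← hrep, map_mul, map_inv, mul_inv_rev, inv_inv, mul_app]
  obtain ⟨h, hh⟩ := ext_dense dD dD' σ hmono hsurj
  have hcomm : ∀ γ x, h (ρ γ x) = ρ γ (h x) := by
    intro γ x
    have h1 : h * ρ γ = ρ γ * h := iso_ext dD fun d hd => by
      rw [mul_app, mul_app, hh d hd, hh _ (hD.inv γ d hd), hequi γ d hd]
    have := congrArg (fun f : ℝ ≃o ℝ => f x) h1
    exact this
  refine ⟨h, hcomm, fun i => ?_, fun d hd => by rw [hh d hd]; exact hmaps d hd, fun z hz => ?_⟩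
  · rw [← hD.closure_eq hF dD i, image_closure_iso]
    conv_rhs => rw [hD.closure_eq hF dD i, ← hD'.closure_eq hF dD' i]
    congr 1
    ext z
    constructor
    · rintro ⟨d, ⟨hd1, hd2⟩, rfl⟩
      rw [hh d hd2]
      refine ⟨?_, hmaps d hd2⟩
      by_cases hdA : d ∈ AR ρ F
      · rwa [hσA d hdA]
      · exact fam_const hF (Fam.base_mem i) (hmem d hd2 hdA).2 hd1
    · rintro ⟨hz1, hz2⟩
      obtain ⟨d, hd, rfl⟩ := hsurj hz2
      refine ⟨d, ⟨?_, hd⟩, hh d hd⟩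
      by_cases hdA : d ∈ AR ρ F
      · rwa [hσA d hdA] at hz1
      · exact fam_const hF (Fam.base_mem i) (hmem d hd hdA).2.symm hz1
  · obtain ⟨d, hd, hd'⟩ := hsurj hz
    exact ⟨d, hd, by rw [hh d hd, hd']⟩

end Pool.Agent.H642.TV
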